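import Pool.Agent.R952.PAM.Ratio

/-!
# Upper and lower bounds of the kernel in a good environment (helper952)
-/

set_option autoImplicit false

namespace Pool.Agent.R952.PAM

open Finset Filter Topology
open scoped Classical

variable {ξ : ℤ → ℝ} {A : Set ℤ} {S : ℝ}

/-- The deterministic properties of the potential which are used. -/
structure Good (ξ : ℤ → ℝ) (S : ℝ) : Prop where
  nonneg : ∀ x, 0 ≤ ξ x
  le : ∀ x, ξ x ≤ S
  island : ∀ η : ℝ, 0 < η → ∀ l : ℕ, ∃ z : ℤ, ∀ w : ℤ, z ≤ w → w < z + l → S - η ≤ ξ w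
  low : ∃ δ : ℝ, 0 < δ ∧ ∀ x : ℤ, ∃ c : ℝ, 0 < c ∧ ∃ R : ℕ, ∀ m : ℕ, R ≤ m →
    c * m ≤ (((Finset.Ioc (x - m) x).filter (fun z => ξ z ≤ S - δ)).card : ℝ)

theorem pow_le_rpow_pow {a γ : ℝ} (ha : 1 ≤ a) {D n : ℕ} (h : (D : ℝ) ≤ γ * n) :
    a ^ D ≤ (a ^ γ) ^ n := by
  rw [← Real.rpow_natCast a D, ← Real.rpow_natCast (a ^ γ) n, ← Real.rpow_mul (by linarith)]
  exact Real.rpow_le_rpow_of_exponent_le ha h

theorem exists_gamma {a α β : ℝ} (ha : 0 < a) (h : α < β) :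
    ∃ γ : ℝ, 0 < γ ∧ γ ≤ 1 / 2 ∧ α * a ^ γ ≤ β := by
  have h1 : Tendsto (fun γ : ℝ => α * a ^ γ) (𝓝 0) (𝓝 (α * a ^ (0:ℝ))) :=
    ((Real.continuous_const_rpow ha.ne').tendsto 0).const_mul α
  rw [Real.rpow_zero, mul_one] at h1
  have h2 : ∀ᶠ γ in 𝓝[>] (0:ℝ), α * a ^ γ < β :=
    (h1.eventually (gt_mem_nhds h)).filter_mono nhdsWithin_le_nhds
  have h3 : ∀ᶠ γ in 𝓝[>] (0:ℝ), γ ∈ Set.Ioc (0:ℝ) (1/2) :=
    Ioc_mem_nhdsGT (by norm_num)
  obtain ⟨γ, hγ1, hγ2⟩ := (h2.and h3).exists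
  exact ⟨γ, hγ2.1, hγ2.2, hγ1.le⟩

/-- The test function on an island. -/
noncomputable def tf (z : ℤ) (l : ℕ) (w : ℤ) : ℝ :=
  if z ≤ w ∧ w < z + l then ((w : ℝ) - z + 1) * ((z : ℝ) + l - w) else 0

theorem tf_nonneg (z : ℤ) (l : ℕ) (w : ℤ) : 0 ≤ tf z l w := by
  unfold tf
  split_ifs with h
  · have h1 : (z : ℝ) ≤ w := by exact_mod_cast h.1
    have h2 : (w : ℝ) ≤ z + l := by exact_mod_cast h.2.le
    exact mul_nonneg (by linarith) (by linarith)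
  · exact le_rfl

theorem tf_le (z : ℤ) (l : ℕ) (w : ℤ) : tf z l w ≤ (l : ℝ) ^ 2 := by
  unfold tf
  split_ifs with h
  · have h1 : (z : ℝ) ≤ w := by exact_mod_cast h.1
    have h2 : (w : ℝ) + 1 ≤ z + l := by exact_mod_cast h.2
    rw [sq]
    exact mul_le_mul (by linarith) (by linarith) (by linarith) (by linarith)
  · positivity

theorem tf_eq_of_bd (z : ℤ) (l : ℕ) (w : ℤ) (h1 : z - 1 ≤ w) (h2 : w ≤ z + l) :
    tf z l w = ((w : ℝ) - z + 1) * ((z : ℝ) + l - w) := by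
  unfold tf
  split_ifs with h
  · rfl
  · have : w = z - 1 ∨ w = z + l := by omega
    rcases this with rfl | rfl
    · push_cast; ring
    · push_cast; ring

theorem tf_op {z : ℤ} {l : ℕ} (hl : 1 ≤ l) {η : ℝ}
    (hI : ∀ w : ℤ, z ≤ w → w < z + l → S - η ≤ ξ w) (w : ℤ) :
    (2 + S - η - 1 / l) * tf z l w ≤ op ξ Set.univ (tf z l) w := by
  unfold op
  rw [if_pos (Set.mem_univ w)]
  by_cases h : z ≤ w ∧ w < z + l
  · have hξ := hI w h.1 h.2
    rw [tf_eq_of_bd z l w (by omega) (by omega), tf_eq_of_bd z l (w + 1) (by omega) (by omega),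
      tf_eq_of_bd z l (w - 1) (by omega) (by omega)]
    push_cast
    have h1 : (z : ℝ) ≤ w := by exact_mod_cast h.1
    have h2 : (w : ℝ) + 1 ≤ z + l := by exact_mod_cast h.2
    have hl' : (1 : ℝ) ≤ l := by exact_mod_cast hl
    set i : ℝ := (w : ℝ) - z with hi
    have hi0 : 0 ≤ i := by linarith
    have hi1 : i + 1 ≤ l := by linarith
    have e1 : (w : ℝ) = z + i := by rw [hi]; ring
    have hP : (l : ℝ) ≤ (i + 1) * (l - i) := by nlinarith
    have hP0 : 0 ≤ (i + 1) * (l - i) := by linarith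
    have k1 : 1 ≤ 1 / (l : ℝ) * ((i + 1) * (l - i)) := by
      rw [one_div, ← div_eq_inv_mul, le_div_iff₀ (by linarith)]
      linarith
    have k2 : (S - η) * ((i + 1) * (l - i)) ≤ ξ w * ((i + 1) * (l - i)) :=
      mul_le_mul_of_nonneg_right hξ hP0
    rw [e1]
    have e2 : (z:ℝ) + i + 1 - z + 1 = i + 2 := by ring
    have e3 : (z:ℝ) + l - (z + i + 1) = l - i - 1 := by ring
    have e4 : (z:ℝ) + i - 1 - z + 1 = i := by ring
    have e5 : (z:ℝ) + l - (z + i - 1) = l - i + 1 := by ring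
    have e7 : (z:ℝ) + l - (z + i) = l - i := by ring
    rw [e2, e3, e4, e5, e7]
    nlinarith
  · have e : tf z l w = 0 := by unfold tf; rw [if_neg h]
    rw [e]
    have h1 := tf_nonneg z l (w + 1)
    have h2 := tf_nonneg z l (w - 1)
    simp only [mul_zero, add_zero]
    linarith

theorem lower (hg : Good ξ S) (x : ℤ) {θ : ℝ} (hθ1 : 1 ≤ θ) (hθ : θ < 2 + S) :
    ∃ γ : ℝ, 0 < γ ∧ ∃ n0 : ℕ, ∀ n : ℕ, n0 ≤ n → ∀ y : ℤ, ((x - y).natAbs : ℝ) ≤ γ * n →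
      θ ^ n ≤ b ξ Set.univ n x y := by
  have h0 := hg.nonneg
  set η : ℝ := (2 + S - θ) / 4 with hη
  have hηpos : 0 < η := by rw [hη]; linarith
  obtain ⟨l, hl⟩ := exists_nat_gt (1 / η)
  have hlpos : (0 : ℝ) < l := lt_trans (by positivity) hl
  have hl1 : 1 ≤ l := by
    have : (0:ℝ) < l := hlpos
    exact_mod_cast this
  have hl2 : 1 / (l : ℝ) < η := by
    rw [div_lt_iff₀ hlpos]
    rw [div_lt_iff₀ hηpos] at hl
    linarith
  obtain ⟨z, hz⟩ := hg.island η hηpos l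
  set μ : ℝ := 2 + S - η - 1 / l with hμ
  have hμθ : θ < μ := by rw [hμ]; linarith
  have hμ1 : 1 < μ := lt_of_le_of_lt hθ1 hμθ
  set μ' : ℝ := (θ + μ) / 2 with hμ'
  have hμ'1 : θ < μ' := by rw [hμ']; linarith
  have hμ'2 : μ' < μ := by rw [hμ']; linarith
  obtain ⟨γ, hγ0, hγ1, hγ2⟩ := exists_gamma (a := 2 * μ) (by linarith) hμ'2
  set m1 := (x - z).natAbs with hm1
  set c : ℝ := (1 / 2) ^ l / (l : ℝ) ^ 2 with hc
  have hcpos : 0 < c := by rw [hc]; positivity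
  -- growth at the island
  have hisl : ∀ k : ℕ, c * μ ^ k ≤ b ξ Set.univ (l + k) z z := by
    intro k
    have h1 := le_b_sub (A := Set.univ) h0 (p := tf z l) (μ := μ) (c := c) (by linarith) hcpos.le
      (fun w => tf_op hl1 hz w) (y := z) (n0 := l) (fun w => by
        by_cases h : z ≤ w ∧ w < z + l
        · have h2 := b_travel h0 l w z (by omega)
          have h3 : (1 / 2 : ℝ) ^ l ≤ (1 / 2) ^ (w - z).natAbs :=
            pow_le_pow_of_le_one (by norm_num) (by norm_num) (by omega)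
          have h4 := tf_le z l w
          calc c * tf z l w ≤ c * (l : ℝ) ^ 2 := mul_le_mul_of_nonneg_left h4 hcpos.le
            _ = (1 / 2 : ℝ) ^ l := by rw [hc]; field_simp
            _ ≤ _ := h3.trans h2
        · have e : tf z l w = 0 := by unfold tf; rw [if_neg h]
          rw [e, mul_zero]
          exact b_nonneg h0 _ _ _) k z
    have h5 : (1:ℝ) ≤ tf z l z := by
      rw [tf_eq_of_bd z l z (by omega) (by omega)]
      have : (1 : ℝ) ≤ l := by exact_mod_cast hl1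
      nlinarith
    calc c * μ ^ k = c * μ ^ k * 1 := by ring
      _ ≤ c * μ ^ k * tf z l z := mul_le_mul_of_nonneg_left h5 (by positivity)
      _ ≤ _ := h1
  -- the constant
  set c2 : ℝ := c / (μ ^ l * (2 * μ) ^ (2 * m1)) with hc2
  have hc2pos : 0 < c2 := by rw [hc2]; positivity
  have hθ0 : 0 < θ := by linarith
  have hev : ∀ᶠ n : ℕ in atTop, 1 / c2 ≤ (μ' / θ) ^ n :=
    (tendsto_pow_atTop_atTop_of_one_lt ((one_lt_div hθ0).2 hμ'1)).eventually_ge_atTop _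
  obtain ⟨n0, hn0⟩ := eventually_atTop.1 hev
  refine ⟨γ, hγ0, max n0 (2 * (2 * m1 + l)), fun n hn y hy => ?_⟩
  have hn1 : n0 ≤ n := le_trans (le_max_left _ _) hn
  have hn2 : 2 * (2 * m1 + l) ≤ n := le_trans (le_max_right _ _) hn
  set D := (x - y).natAbs with hD
  set m2 := (z - y).natAbs with hm2
  have hm2' : m2 ≤ m1 + D := by omega
  have hDn : 2 * D ≤ n := by
    have : (D : ℝ) ≤ 1 / 2 * n := hy.trans (mul_le_mul_of_nonneg_right hγ1 (Nat.cast_nonneg n))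
    have h2 : (2 : ℝ) * D ≤ n := by linarith
    exact_mod_cast h2
  obtain ⟨k, hk⟩ : ∃ k, n = m1 + ((l + k) + m2) := ⟨n - m1 - l - m2, by omega⟩
  have hb1 : (1 / 2 : ℝ) ^ m1 ≤ b ξ Set.univ m1 x z := b_travel h0 m1 x z le_rfl
  have hb2 : (1 / 2 : ℝ) ^ m2 ≤ b ξ Set.univ m2 z y := b_travel h0 m2 z y le_rfl
  have hb3 := hisl k
  have hb4 : b ξ Set.univ (l + k) z z * b ξ Set.univ m2 z y ≤ b ξ Set.univ (l + k + m2) z y :=
    b_mul_le h0 _ _ _ _ _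
  have hb5 : b ξ Set.univ m1 x z * b ξ Set.univ (l + k + m2) z y ≤
      b ξ Set.univ (m1 + (l + k + m2)) x y := b_mul_le h0 _ _ _ _ _
  rw [← hk] at hb5
  have hlow : (1 / 2 : ℝ) ^ m1 * (c * μ ^ k * (1 / 2) ^ m2) ≤ b ξ Set.univ n x y := by
    refine le_trans ?_ hb5
    refine mul_le_mul hb1 ?_ (by positivity) (b_nonneg h0 _ _ _)
    refine le_trans ?_ hb4
    exact mul_le_mul hb3 hb2 (by positivity) (b_nonneg h0 _ _ _)
  refine le_trans ?_ hlow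
  -- compare
  have e1 : (1 / 2 : ℝ) ^ m1 * (c * μ ^ k * (1 / 2) ^ m2) =
      c * μ ^ n / (μ ^ l * (2 * μ) ^ (m1 + m2)) := by
    rw [eq_div_iff (by positivity), hk, mul_pow, pow_add, pow_add, pow_add, pow_add, pow_add,
      one_div, inv_pow, inv_pow]
    field_simp
  rw [e1]
  have h2μ : 1 ≤ 2 * μ := by linarith
  have e2 : (2 * μ) ^ (m1 + m2) ≤ (2 * μ) ^ (2 * m1) * ((2 * μ) ^ γ) ^ n := by
    calc (2 * μ) ^ (m1 + m2) ≤ (2 * μ) ^ (2 * m1 + D) := pow_le_pow_right₀ h2μ (by omega)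
      _ = (2 * μ) ^ (2 * m1) * (2 * μ) ^ D := pow_add _ _ _
      _ ≤ _ := mul_le_mul_of_nonneg_left (pow_le_rpow_pow h2μ hy) (by positivity)
  have e3 : c * μ ^ n / (μ ^ l * ((2 * μ) ^ (2 * m1) * ((2 * μ) ^ γ) ^ n)) ≤
      c * μ ^ n / (μ ^ l * (2 * μ) ^ (m1 + m2)) := by
    apply div_le_div_of_nonneg_left (by positivity) (by positivity)
    exact mul_le_mul_of_nonneg_left e2 (by positivity)
  refine le_trans ?_ e3
  have hpos : 0 < (2 * μ) ^ γ := by positivity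
  have e4 : c * μ ^ n / (μ ^ l * ((2 * μ) ^ (2 * m1) * ((2 * μ) ^ γ) ^ n)) =
      c2 * (μ / (2 * μ) ^ γ) ^ n := by
    rw [hc2, div_pow]
    field_simp
  rw [e4]
  have e5 : μ' ≤ μ / (2 * μ) ^ γ := by rw [le_div_iff₀ hpos]; exact hγ2
  have e6 : μ' ^ n ≤ (μ / (2 * μ) ^ γ) ^ n := pow_le_pow_left₀ (by linarith) e5 n
  have e7 := hn0 n hn1
  rw [div_pow, div_le_div_iff₀ hc2pos (by positivity)] at e7
  calc θ ^ n = 1 * θ ^ n := by ring
    _ ≤ μ' ^ n * c2 := e7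
    _ = c2 * μ' ^ n := by ring
    _ ≤ c2 * (μ / (2 * μ) ^ γ) ^ n := mul_le_mul_of_nonneg_left e6 hc2pos.le

end Pool.Agent.R952.PAM
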