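import Pool.Agent.R952.PAM.Sym

/-!
# A class of sequences stable under convolution (helper952)
-/

set_option autoImplicit false

namespace Pool.Agent.R952.PAM

open Finset
open scoped Classical

/-- A quantitative growth property; it holds for the `D`-fold convolutions of log-convex
sequences. -/
structure Cls (D : ℕ) (a : ℕ → ℝ) : Prop where
  pos : ∀ n, 0 < a n
  ineq : ∀ n : ℕ, ((n : ℝ) + D + 1) *
    (a n * (a n / ((n + D).choose D : ℝ)) ^ (1 / ((n : ℝ) + D + 1))) ≤ ((n : ℝ) + 1) * a (n + 1)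

theorem cls_zero {a : ℕ → ℝ} (h0 : a 0 = 1) (h1 : 1 ≤ a 1) (hpos : ∀ n, 0 < a n)
    (hlc : ∀ n, a (n + 1) ^ 2 ≤ a n * a (n + 2)) : Cls 0 a := by
  have hmono : ∀ n, a n ≤ a (n + 1) := by
    intro n
    induction n with
    | zero => rw [h0]; exact h1
    | succ n ih =>
      have h := hlc n
      have p0 := hpos n
      have p1 := hpos (n + 1)
      by_contra hcon
      rw [not_le] at hcon
      have : a n * a (n + 2) < a (n + 1) * a (n + 1) :=
        lt_of_le_of_lt (mul_le_mul_of_nonneg_right ih (hpos (n + 2)).le)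
          (mul_lt_mul_of_pos_left hcon p1)
      nlinarith
  have hpow : ∀ n, a n ^ (n + 1) ≤ a (n + 1) ^ n := by
    intro n
    induction n with
    | zero => simp [h0]
    | succ n ih =>
      have p0 := hpos n
      have p1 := hpos (n + 1)
      have p2 := hpos (n + 2)
      have e1 : (a (n + 1) ^ 2) ^ (n + 1) ≤ (a n * a (n + 2)) ^ (n + 1) :=
        pow_le_pow_left₀ (by positivity) (hlc n) _
      have e2 : a (n + 1) ^ (n + 2) * a (n + 1) ^ n = (a (n + 1) ^ 2) ^ (n + 1) := by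
        rw [← pow_mul, ← pow_add]; congr 1; ring
      have e3 : (a n * a (n + 2)) ^ (n + 1) ≤ a (n + 1) ^ n * a (n + 2) ^ (n + 1) := by
        rw [mul_pow]
        exact mul_le_mul_of_nonneg_right ih (by positivity)
      have e4 : a (n + 1) ^ (n + 2) * a (n + 1) ^ n ≤ a (n + 2) ^ (n + 1) * a (n + 1) ^ n := by
        rw [e2]
        calc _ ≤ _ := e1
          _ ≤ _ := e3
          _ = _ := by ring
      exact le_of_mul_le_mul_right e4 (by positivity)
  refine ⟨hpos, fun n => ?_⟩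
  simp only [Nat.cast_zero, add_zero, Nat.choose_zero_right, Nat.cast_one, div_one]
  refine mul_le_mul_of_nonneg_left ?_ (by positivity)
  have p0 := hpos n
  have p1 := hpos (n + 1)
  have hr : a n ^ (1 / ((n : ℝ) + 1)) ≤ a (n + 1) / a n := by
    have h2 : a n ≤ (a (n + 1) / a n) ^ (n + 1) := by
      rw [div_pow, le_div_iff₀ (by positivity)]
      calc a n * a n ^ (n + 1) ≤ a (n + 1) * a (n + 1) ^ n :=
            mul_le_mul (hmono n) (hpow n) (by positivity) p1.le
        _ = a (n + 1) ^ (n + 1) := by ring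
    have h3 := Real.rpow_le_rpow p0.le h2 (by positivity : (0:ℝ) ≤ 1 / ((n:ℝ) + 1))
    have h4 : ((a (n + 1) / a n) ^ (n + 1)) ^ (1 / ((n:ℝ) + 1)) = a (n + 1) / a n := by
      have := Real.pow_rpow_inv_natCast (x := a (n + 1) / a n) (by positivity)
        (n := n + 1) (by omega)
      push_cast at this
      rw [one_div]
      exact this
    rw [h4] at h3
    exact h3
  calc a n * a n ^ (1 / ((n : ℝ) + 1)) ≤ a n * (a (n + 1) / a n) :=
        mul_le_mul_of_nonneg_left hr p0.le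
    _ = a (n + 1) := by field_simp

theorem amgm {s t A B : ℝ} (hs : 0 < s) (ht : 0 < t) (hA : 0 < A) (hB : 0 < B) :
    (s + t) * (A * B) ^ (1 / (s + t)) ≤ s * A ^ (1 / s) + t * B ^ (1 / t) := by
  have h := Real.geom_mean_le_arith_mean2_weighted (w₁ := s / (s + t)) (w₂ := t / (s + t))
    (p₁ := A ^ (1 / s)) (p₂ := B ^ (1 / t)) (by positivity) (by positivity) (by positivity)
    (by positivity) (by field_simp)
  rw [← Real.rpow_mul hA.le, ← Real.rpow_mul hB.le] at h
  have e1 : 1 / s * (s / (s + t)) = 1 / (s + t) := by field_simp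
  have e2 : 1 / t * (t / (s + t)) = 1 / (s + t) := by field_simp
  rw [e1, e2, ← Real.mul_rpow hA.le hB.le] at h
  calc (s + t) * (A * B) ^ (1 / (s + t)) ≤
        (s + t) * (s / (s + t) * A ^ (1 / s) + t / (s + t) * B ^ (1 / t)) :=
        mul_le_mul_of_nonneg_left h (by positivity)
    _ = s * A ^ (1 / s) + t * B ^ (1 / t) := by field_simp

theorem sum_choose (D n : ℕ) :
    ∑ q ∈ antidiagonal n, (((q.2 + D).choose D : ℕ) : ℝ) = ((n + (D + 1)).choose (D + 1) : ℕ) := by
  rw [← Nat.cast_sum]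
  congr 1
  induction n with
  | zero => simp
  | succ n ih =>
    rw [Finset.Nat.sum_antidiagonal_succ, ih]
    have : n + 1 + (D + 1) = (n + 1 + D) + 1 := by ring
    rw [this, Nat.choose_succ_succ]
    have : n + (D + 1) = n + 1 + D := by ring
    rw [this]

theorem cls_conv {D : ℕ} {a β : ℕ → ℝ} (hb : Cls 0 β) (ha : Cls D a) :
    Cls (D + 1) (fun n => ∑ q ∈ antidiagonal n, β q.1 * a q.2) := by
  set c : ℕ → ℝ := fun n => ∑ q ∈ antidiagonal n, β q.1 * a q.2 with hc
  have hcpos : ∀ n, 0 < c n := fun n =>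
    Finset.sum_pos (fun q _ => mul_pos (hb.pos _) (ha.pos _)) ⟨(0, n), by simp⟩
  refine ⟨hcpos, fun n => ?_⟩
  have e : ((n : ℝ) + 1) * c (n + 1) = ∑ q ∈ antidiagonal n,
      ((((q.1 : ℝ) + 1) * β (q.1 + 1)) * a q.2 + β q.1 * (((q.2 : ℝ) + 1) * a (q.2 + 1))) := by
    have e1 : ((n : ℝ) + 1) * c (n + 1) =
        ∑ q ∈ antidiagonal (n + 1), (q.1 : ℝ) * (β q.1 * a q.2) +
          ∑ q ∈ antidiagonal (n + 1), (q.2 : ℝ) * (β q.1 * a q.2) := by
      rw [← Finset.sum_add_distrib, hc]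
      simp only
      rw [Finset.mul_sum]
      refine Finset.sum_congr rfl (fun q hq => ?_)
      have h1 : q.1 + q.2 = n + 1 := by simpa using hq
      have h2 : (q.1 : ℝ) + q.2 = n + 1 := by exact_mod_cast h1
      rw [← h2]; ring
    rw [e1, Finset.Nat.sum_antidiagonal_succ,
      Finset.Nat.sum_antidiagonal_succ' (f := fun q : ℕ × ℕ => (q.2 : ℝ) * (β q.1 * a q.2)),
      Finset.sum_add_distrib]
    simp only [Nat.cast_zero, zero_mul, zero_add, Nat.cast_add, Nat.cast_one]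
    congr 1
    · refine Finset.sum_congr rfl (fun q _ => by ring)
    · refine Finset.sum_congr rfl (fun q _ => by ring)
  set ε : ℝ := 1 / ((n : ℝ) + D + 2) with hε
  have hε0 : 0 < ε := by rw [hε]; positivity
  have hterm : ∀ q ∈ antidiagonal n, ((n : ℝ) + D + 2) *
      ((((q.2 + D).choose D : ℕ) : ℝ) *
        (β q.1 * (a q.2 / (((q.2 + D).choose D : ℕ) : ℝ))) ^ (1 + ε)) ≤
      ((((q.1 : ℝ) + 1) * β (q.1 + 1)) * a q.2 + β q.1 * (((q.2 : ℝ) + 1) * a (q.2 + 1))) := by
    intro q hq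
    have hq' : q.1 + q.2 = n := by simpa using hq
    have hqn : (q.1 : ℝ) + q.2 = n := by exact_mod_cast hq'
    have hC : (0 : ℝ) < (((q.2 + D).choose D : ℕ) : ℝ) := by
      exact_mod_cast Nat.choose_pos (Nat.le_add_left D q.2)
    set C : ℝ := (((q.2 + D).choose D : ℕ) : ℝ) with hCdef
    have pb := hb.pos q.1
    have pa := ha.pos q.2
    have i1 := hb.ineq q.1
    simp only [Nat.cast_zero, add_zero, Nat.choose_zero_right, Nat.cast_one, div_one] at i1
    have i2 := ha.ineq q.2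
    rw [← hCdef] at i2
    have hAM := amgm (s := (q.1 : ℝ) + 1) (t := (q.2 : ℝ) + D + 1) (A := β q.1) (B := a q.2 / C)
      (by positivity) (by positivity) pb (by positivity)
    have e2 : (q.1 : ℝ) + 1 + ((q.2 : ℝ) + D + 1) = (n : ℝ) + D + 2 := by rw [← hqn]; ring
    rw [e2, ← hε] at hAM
    have e3 : C * (β q.1 * (a q.2 / C)) ^ (1 + ε) =
        (β q.1 * a q.2) * (β q.1 * (a q.2 / C)) ^ ε := by
      rw [Real.rpow_add (by positivity), Real.rpow_one]
      field_simp
    rw [e3]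
    calc ((n : ℝ) + D + 2) * ((β q.1 * a q.2) * (β q.1 * (a q.2 / C)) ^ ε)
        = (β q.1 * a q.2) * (((n : ℝ) + D + 2) * (β q.1 * (a q.2 / C)) ^ ε) := by ring
      _ ≤ (β q.1 * a q.2) * (((q.1 : ℝ) + 1) * β q.1 ^ (1 / ((q.1 : ℝ) + 1)) +
          ((q.2 : ℝ) + D + 1) * (a q.2 / C) ^ (1 / ((q.2 : ℝ) + D + 1))) :=
          mul_le_mul_of_nonneg_left hAM (by positivity)
      _ = (((q.1 : ℝ) + 1) * (β q.1 * β q.1 ^ (1 / ((q.1 : ℝ) + 1)))) * a q.2 +
          β q.1 * (((q.2 : ℝ) + D + 1) * (a q.2 * (a q.2 / C) ^ (1 / ((q.2 : ℝ) + D + 1)))) := by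
          ring
      _ ≤ _ := add_le_add (mul_le_mul_of_nonneg_right i1 pa.le)
          (mul_le_mul_of_nonneg_left i2 pb.le)
  set N : ℝ := (((n + (D + 1)).choose (D + 1) : ℕ) : ℝ) with hN
  have hNpos : 0 < N := by
    rw [hN]; exact_mod_cast Nat.choose_pos (Nat.le_add_left (D + 1) n)
  have hJ := Real.rpow_arith_mean_le_arith_mean_rpow (antidiagonal n)
    (fun q : ℕ × ℕ => (((q.2 + D).choose D : ℕ) : ℝ) / N)
    (fun q : ℕ × ℕ => β q.1 * (a q.2 / (((q.2 + D).choose D : ℕ) : ℝ)))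
    (fun q _ => by positivity)
    (by rw [← Finset.sum_div, sum_choose, ← hN]; exact div_self hNpos.ne')
    (fun q _ => mul_nonneg (hb.pos _).le (div_nonneg (ha.pos _).le (Nat.cast_nonneg _)))
    (p := 1 + ε) (by linarith)
  have eJ : ∑ q ∈ antidiagonal n, (((q.2 + D).choose D : ℕ) : ℝ) / N *
      (β q.1 * (a q.2 / (((q.2 + D).choose D : ℕ) : ℝ))) = c n / N := by
    rw [hc]
    simp only
    rw [Finset.sum_div]
    refine Finset.sum_congr rfl (fun q _ => ?_)
    have hC : (((q.2 + D).choose D : ℕ) : ℝ) ≠ 0 := by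
      exact_mod_cast (Nat.choose_pos (Nat.le_add_left D q.2)).ne'
    field_simp
  rw [eJ] at hJ
  have e5 : ((n : ℝ) + ((D + 1 : ℕ) : ℝ) + 1) = (n : ℝ) + D + 2 := by push_cast; ring
  rw [e5, ← hε, e]
  calc ((n : ℝ) + D + 2) * (c n * (c n / N) ^ ε)
      = ((n : ℝ) + D + 2) * (N * (c n / N) ^ (1 + ε)) := by
        rw [Real.rpow_add (by have := hcpos n; positivity), Real.rpow_one]
        field_simp
    _ ≤ ((n : ℝ) + D + 2) * (N * ∑ q ∈ antidiagonal n, (((q.2 + D).choose D : ℕ) : ℝ) / N *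
        (β q.1 * (a q.2 / (((q.2 + D).choose D : ℕ) : ℝ))) ^ (1 + ε)) :=
        mul_le_mul_of_nonneg_left (mul_le_mul_of_nonneg_left hJ hNpos.le) (by positivity)
    _ = ∑ q ∈ antidiagonal n, ((n : ℝ) + D + 2) * ((((q.2 + D).choose D : ℕ) : ℝ) *
        (β q.1 * (a q.2 / (((q.2 + D).choose D : ℕ) : ℝ))) ^ (1 + ε)) := by
        rw [Finset.mul_sum, Finset.mul_sum]
        refine Finset.sum_congr rfl (fun q _ => ?_)
        field_simp
    _ ≤ _ := Finset.sum_le_sum hterm

end Pool.Agent.R952.PAM
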