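import Pool.Agent.R952.PAM.Bounds

/-!
# The discrete-time inequality (helper952)
-/

set_option autoImplicit false

namespace Pool.Agent.R952.PAM

open Finset Filter Topology
open scoped Classical

variable {ξ : ℤ → ℝ} {A : Set ℤ} {S : ℝ}

theorem choose_mul_pow_le {r : ℝ} (hr : 0 ≤ r) {n D : ℕ} (h : D ≤ n) :
    (n.choose D : ℝ) * r ^ D ≤ (1 + r) ^ n := by
  rw [add_comm, add_pow]
  have h1 : r ^ D * 1 ^ (n - D) * (n.choose D : ℝ) ≤
      ∑ m ∈ range (n + 1), r ^ m * 1 ^ (n - m) * (n.choose m : ℝ) :=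
    Finset.single_le_sum (f := fun m => r ^ m * 1 ^ (n - m) * (n.choose m : ℝ))
      (fun m _ => by positivity) (Finset.mem_range.2 (by omega))
  simpa [mul_comm] using h1

theorem near (hS : 0 < S) (hg : Good ξ S) (x : ℤ) :
    ∃ γ : ℝ, 0 < γ ∧ ∃ n0 : ℕ, ∀ n : ℕ, n0 ≤ n → ∀ y : ℤ, ((x - y).natAbs : ℝ) ≤ γ * n →
      (2 + S / 2) * b ξ Set.univ n x y ≤ b ξ Set.univ (n + 1) x y := by
  have h0 := hg.nonneg
  obtain ⟨γ1, hγ1, n1, hn1⟩ := lower hg x (θ := 2 + 3 * S / 4) (by linarith) (by linarith)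
  set θ : ℝ := 2 + 3 * S / 4 with hθ
  set r : ℝ := (S / 16) / (2 + S / 2) with hr
  have hrpos : 0 < r := by rw [hr]; positivity
  have hr1 : (1 + r) * (2 + S / 2) = 2 + 9 * S / 16 := by
    rw [hr]; field_simp; ring
  set a : ℝ := max 1 (1 / r) with ha
  have ha1 : 1 ≤ a := le_max_left _ _
  have har : 1 ≤ a * r := by
    have : 1 / r ≤ a := le_max_right _ _
    rwa [div_le_iff₀ hrpos] at this
  obtain ⟨γ2, hγ2, hγ2', hγ3⟩ := exists_gamma (a := a) (α := 2 + 9 * S / 16)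
    (β := 2 + 5 * S / 8) (by linarith) (by linarith)
  have hev : ∀ᶠ n : ℕ in atTop, 2 + S / 2 ≤ (θ / (2 + 5 * S / 8)) ^ n := by
    refine (tendsto_pow_atTop_atTop_of_one_lt ?_).eventually_ge_atTop _
    rw [one_lt_div (by positivity), hθ]
    linarith
  obtain ⟨n2, hn2⟩ := eventually_atTop.1 hev
  refine ⟨min γ1 γ2, lt_min hγ1 hγ2, max n1 n2, fun n hn y hy => ?_⟩
  have hnn1 : n1 ≤ n := le_trans (le_max_left _ _) hn
  have hnn2 : n2 ≤ n := le_trans (le_max_right _ _) hn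
  have hy1 : ((x - y).natAbs : ℝ) ≤ γ1 * n :=
    hy.trans (mul_le_mul_of_nonneg_right (min_le_left _ _) (Nat.cast_nonneg n))
  have hy2 : ((x - y).natAbs : ℝ) ≤ γ2 * n :=
    hy.trans (mul_le_mul_of_nonneg_right (min_le_right _ _) (Nat.cast_nonneg n))
  have hyn : (x - y).natAbs ≤ n := by
    have : ((x - y).natAbs : ℝ) ≤ 1 / 2 * n :=
      hy2.trans (mul_le_mul_of_nonneg_right hγ2' (Nat.cast_nonneg n))
    have h2 : ((x - y).natAbs : ℝ) ≤ n := by
      have : (0 : ℝ) ≤ n := Nat.cast_nonneg n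
      linarith
    exact_mod_cast h2
  refine ratio_ge h0 x y n hyn (by positivity) ?_
  refine le_trans ?_ (hn1 n hnn1 y hy1)
  set D := (x - y).natAbs with hD
  have k1 : (n.choose D : ℝ) ≤ (1 + r) ^ n * a ^ D := by
    have k2 := choose_mul_pow_le hrpos.le hyn
    calc (n.choose D : ℝ) = (n.choose D : ℝ) * 1 := by ring
      _ ≤ (n.choose D : ℝ) * (a * r) ^ D :=
          mul_le_mul_of_nonneg_left (one_le_pow₀ har) (Nat.cast_nonneg _)
      _ = ((n.choose D : ℝ) * r ^ D) * a ^ D := by rw [mul_pow]; ring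
      _ ≤ (1 + r) ^ n * a ^ D := mul_le_mul_of_nonneg_right k2 (by positivity)
  have k3 : a ^ D ≤ (a ^ γ2) ^ n := pow_le_rpow_pow ha1 hy2
  have k4 := hn2 n hnn2
  rw [div_pow, le_div_iff₀ (by positivity)] at k4
  calc (2 + S / 2) ^ (n + 1) * (n.choose D : ℝ)
      ≤ (2 + S / 2) ^ (n + 1) * ((1 + r) ^ n * (a ^ γ2) ^ n) := by
        refine mul_le_mul_of_nonneg_left (k1.trans ?_) (by positivity)
        exact mul_le_mul_of_nonneg_left k3 (by positivity)
    _ = (2 + S / 2) * (((1 + r) * (2 + S / 2)) * a ^ γ2) ^ n := by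
        rw [mul_pow, mul_pow]; ring
    _ = (2 + S / 2) * ((2 + 9 * S / 16) * a ^ γ2) ^ n := by rw [hr1]
    _ ≤ (2 + S / 2) * (2 + 5 * S / 8) ^ n := by
        refine mul_le_mul_of_nonneg_left (pow_le_pow_left₀ (by positivity) hγ3 n) (by positivity)
    _ ≤ θ ^ n := k4

/-- The supersolution. -/
noncomputable def sf (ξ : ℤ → ℝ) (S δ : ℝ) (y w : ℤ) : ℝ :=
  (1 / (1 + 2 * δ)) ^ ((Finset.Ioc y w).filter (fun z => ξ z ≤ S - δ)).card

theorem sf_nonneg {δ : ℝ} (hδ : 0 < δ) (y w : ℤ) : 0 ≤ sf ξ S δ y w := by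
  unfold sf; positivity

theorem sf_le_one {δ : ℝ} (hδ : 0 < δ) (y w : ℤ) : sf ξ S δ y w ≤ 1 := by
  unfold sf
  refine pow_le_one₀ (by positivity) ?_
  rw [div_le_one (by positivity)]; linarith

theorem sf_one {δ : ℝ} {y w : ℤ} (h : w ≤ y) : sf ξ S δ y w = 1 := by
  unfold sf
  rw [Finset.Ioc_eq_empty (by omega)]
  simp

theorem sf_succ {δ : ℝ} {y w : ℤ} (h : y ≤ w) :
    sf ξ S δ y (w + 1) = sf ξ S δ y w * (if ξ (w + 1) ≤ S - δ then 1 / (1 + 2 * δ) else 1) := by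
  unfold sf
  have e : Finset.Ioc y (w + 1) = insert (w + 1) (Finset.Ioc y w) := by
    ext z
    simp only [Finset.mem_Ioc, Finset.mem_insert]
    omega
  have hn : w + 1 ∉ (Finset.Ioc y w).filter (fun z => ξ z ≤ S - δ) := by simp
  rw [e, Finset.filter_insert]
  split_ifs with h1
  · rw [Finset.card_insert_of_notMem hn, pow_succ]
  · rw [mul_one]

theorem sf_op (hg : Good ξ S) {δ : ℝ} (hδ : 0 < δ) (y w : ℤ) :
    op ξ Set.univ (sf ξ S δ y) w ≤ (2 + S) * sf ξ S δ y w := by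
  unfold op
  rw [if_pos (Set.mem_univ w)]
  have hξ0 := hg.nonneg w
  have hξ1 := hg.le w
  rcases le_or_gt w y with h | h
  · have h1 := sf_le_one (ξ := ξ) (S := S) hδ y (w + 1)
    have h2 := sf_le_one (ξ := ξ) (S := S) hδ y (w - 1)
    rw [sf_one h]
    linarith
  · have e1 := sf_succ (ξ := ξ) (S := S) (δ := δ) (y := y) (w := w) h.le
    have e2 := sf_succ (ξ := ξ) (S := S) (δ := δ) (y := y) (w := w - 1) (by omega)
    rw [sub_add_cancel] at e2
    set s0 := sf ξ S δ y (w - 1) with hs0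
    set s1 := sf ξ S δ y w with hs1
    set s2 := sf ξ S δ y (w + 1) with hs2
    have p1 : 0 ≤ s1 := sf_nonneg hδ y w
    have p0 : 0 ≤ s0 := sf_nonneg hδ y (w - 1)
    have h2 : s2 ≤ s1 := by
      rw [e1]
      refine mul_le_of_le_one_right p1 ?_
      split_ifs
      · rw [div_le_one (by positivity)]; linarith
      · exact le_rfl
    by_cases hl : ξ w ≤ S - δ
    · rw [if_pos hl] at e2
      have e3 : s0 = (1 + 2 * δ) * s1 := by rw [e2]; field_simp
      rw [e3]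
      nlinarith
    · rw [if_neg hl, mul_one] at e2
      rw [← e2]
      nlinarith

theorem far (hg : Good ξ S) (x : ℤ) : ∃ q : ℝ, 0 < q ∧ q < 1 ∧ ∃ R : ℕ, ∀ m : ℕ, R ≤ m →
    ∀ n : ℕ, b ξ Set.univ n x (x - m) ≤ (2 + S) ^ n * q ^ m := by
  have h0 := hg.nonneg
  have hS : 0 ≤ S := (h0 0).trans (hg.le 0)
  obtain ⟨δ, hδ, hlow⟩ := hg.low
  obtain ⟨c, hc, R, hR⟩ := hlow x
  set ρ : ℝ := 1 / (1 + 2 * δ) with hρ
  have hρ0 : 0 < ρ := by rw [hρ]; positivity
  have hρ1 : ρ < 1 := by rw [hρ, div_lt_one (by positivity)]; linarith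
  refine ⟨ρ ^ c, by positivity, Real.rpow_lt_one hρ0.le hρ1 hc, R, fun m hm n => ?_⟩
  have h1 := b_le_super (A := Set.univ) h0 (ψ := sf ξ S δ (x - m)) (M := 2 + S)
    (fun w => sf_nonneg hδ _ w) (by linarith) (fun w => sf_op hg hδ _ w) (y := x - m)
    (by rw [sf_one le_rfl]) n x
  refine h1.trans (mul_le_mul_of_nonneg_left ?_ (by positivity))
  unfold sf
  rw [← hρ, ← Real.rpow_natCast ρ, ← Real.rpow_natCast (ρ ^ c), ← Real.rpow_mul hρ0.le]
  exact Real.rpow_le_rpow_of_exponent_ge hρ0 hρ1.le (hR m hm)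

/-- The discrete-time solution. -/
noncomputable def U (ξ : ℤ → ℝ) (u0 : ℤ → ℝ) : ℕ → ℤ → ℝ
  | 0 => u0
  | n + 1 => op ξ Set.univ (U ξ u0 n)

theorem U_eq_sum (u0 : ℤ → ℝ) (n : ℕ) : ∀ (F : Finset ℤ) (x : ℤ),
    (∀ y : ℤ, (x - y).natAbs ≤ n → y ∈ F) → U ξ u0 n x = ∑ y ∈ F, b ξ Set.univ n x y * u0 y := by
  induction n with
  | zero =>
    intro F x hF
    rw [Finset.sum_eq_single x]
    · simp [U, b_zero]
    · intro y _ hy
      rw [b_zero, if_neg (fun h => hy h.1.symm), zero_mul]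
    · intro h
      exact absurd (hF x (by simp)) h
  | succ n ih =>
    intro F x hF
    have e : U ξ u0 (n + 1) x = op ξ Set.univ (U ξ u0 n) x := rfl
    rw [e, op, if_pos (Set.mem_univ x), ih F (x + 1) (fun y hy => hF y (by omega)),
      ih F (x - 1) (fun y hy => hF y (by omega)), ih F x (fun y hy => hF y (by omega)),
      ← Finset.sum_add_distrib, Finset.sum_div, Finset.mul_sum, ← Finset.sum_add_distrib]
    refine Finset.sum_congr rfl (fun y _ => ?_)
    rw [b_succ_mem (Set.mem_univ x)]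
    ring

theorem main_disc (hS : 0 < S) (hg : Good ξ S) {u0 : ℤ → ℝ} {C : ℝ} (hu0 : ∀ y, 0 ≤ u0 y)
    (huC : ∀ y, u0 y ≤ C) (hup : ∀ y, 0 < y → u0 y = 0) (hu1 : 1 ≤ u0 0) (x : ℤ) :
    ∃ n0 : ℕ, ∀ n : ℕ, n0 ≤ n → 1 ≤ U ξ u0 (n + 1) x - 2 * U ξ u0 n x := by
  have h0 := hg.nonneg
  have hC : 0 ≤ C := (hu0 0).trans (huC 0)
  obtain ⟨γ, hγ, n1, hn1⟩ := near hS hg x
  obtain ⟨q, hq0, hq1, R, hR⟩ := far hg x
  have hqγ : q ^ γ < 1 := Real.rpow_lt_one hq0.le hq1 hγ
  have hqγ0 : 0 < q ^ γ := by positivity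
  set τ : ℝ := (2 + S) * q ^ γ with hτ
  have hτ0 : 0 < τ := by rw [hτ]; positivity
  have hτ1 : τ < 2 + S := by
    rw [hτ]
    exact mul_lt_of_lt_one_right (by linarith) hqγ
  set θ : ℝ := (max 2 τ + (2 + S)) / 2 with hθ
  have hmax : max 2 τ < 2 + S := max_lt (by linarith) hτ1
  have hθ2 : 2 ≤ θ := by
    have := le_max_left 2 τ
    rw [hθ]; linarith
  have hθτ : τ < θ := by
    have := le_max_right 2 τ
    rw [hθ]; linarith
  have hθS : θ < 2 + S := by rw [hθ]; linarith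
  obtain ⟨γ', hγ', n2, hn2⟩ := lower hg x (θ := θ) (by linarith) hθS
  -- large n
  have ev1 : ∀ᶠ n : ℕ in atTop, (x.natAbs : ℝ) ≤ γ * n :=
    (tendsto_natCast_atTop_atTop.const_mul_atTop hγ).eventually_ge_atTop _
  have ev2 : ∀ᶠ n : ℕ in atTop, (x.natAbs : ℝ) ≤ γ' * n :=
    (tendsto_natCast_atTop_atTop.const_mul_atTop hγ').eventually_ge_atTop _
  have ev3 : ∀ᶠ n : ℕ in atTop, (R : ℝ) ≤ γ * n :=
    (tendsto_natCast_atTop_atTop.const_mul_atTop hγ).eventually_ge_atTop _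
  have ev4 : ∀ᶠ n : ℕ in atTop, 1 ≤ S / 2 * θ ^ n - (2 * n + 3) * (C * τ ^ n) := by
    have hr : |τ / θ| < 1 := by
      rw [abs_of_pos (by positivity), div_lt_one (by linarith)]; exact hθτ
    have t1 : Tendsto (fun n : ℕ => (n : ℝ) * (τ / θ) ^ n) atTop (𝓝 0) :=
      tendsto_self_mul_const_pow_of_abs_lt_one hr
    have t2 : Tendsto (fun n : ℕ => (τ / θ) ^ n) atTop (𝓝 0) :=
      tendsto_pow_atTop_nhds_zero_of_abs_lt_one hr
    have t3 : Tendsto (fun n : ℕ => S / 2 - C * (2 * ((n : ℝ) * (τ / θ) ^ n) + 3 * (τ / θ) ^ n))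
        atTop (𝓝 (S / 2 - C * (2 * 0 + 3 * 0))) :=
      tendsto_const_nhds.sub (((t1.const_mul 2).add (t2.const_mul 3)).const_mul C)
    have e0 : S / 2 - C * (2 * 0 + 3 * 0) = S / 2 := by ring
    rw [e0] at t3
    have t4 := t3.eventually (lt_mem_nhds (show S / 4 < S / 2 by linarith))
    have t5 : ∀ᶠ n : ℕ in atTop, 4 / S ≤ θ ^ n :=
      (tendsto_pow_atTop_atTop_of_one_lt (by linarith)).eventually_ge_atTop _
    filter_upwards [t4, t5] with n h4 h5
    have hθn : 0 < θ ^ n := by positivity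
    have e1 : S / 2 * θ ^ n - (2 * n + 3) * (C * τ ^ n) =
        θ ^ n * (S / 2 - C * (2 * ((n : ℝ) * (τ / θ) ^ n) + 3 * (τ / θ) ^ n)) := by
      have hθn0 : θ ^ n ≠ 0 := hθn.ne'
      rw [div_pow τ θ n]
      generalize θ ^ n = X at hθn0 ⊢
      field_simp
    rw [e1]
    rw [div_le_iff₀ hS] at h5
    nlinarith
  obtain ⟨n3, hn3⟩ := eventually_atTop.1 (ev1.and (ev2.and (ev3.and ev4)))
  refine ⟨max (max n1 n2) n3, fun n hn => ?_⟩
  have hnn1 : n1 ≤ n := le_trans (le_trans (le_max_left _ _) (le_max_left _ _)) hn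
  have hnn2 : n2 ≤ n := le_trans (le_trans (le_max_right _ _) (le_max_left _ _)) hn
  obtain ⟨c1, c2, c3, c4⟩ := hn3 n (le_trans (le_max_right _ _) hn)
  set F : Finset ℤ := Finset.Icc (x - (n + 1)) (x + (n + 1)) with hF
  have hFn1 : ∀ y : ℤ, (x - y).natAbs ≤ n + 1 → y ∈ F := fun y hy => by
    rw [hF, Finset.mem_Icc]; omega
  rw [U_eq_sum u0 (n + 1) F x hFn1, U_eq_sum u0 n F x (fun y hy => hFn1 y (by omega)),
    Finset.mul_sum, ← Finset.sum_sub_distrib]
  have hterm : ∀ y ∈ F, (if y = 0 then S / 2 * θ ^ n else 0) - C * τ ^ n ≤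
      b ξ Set.univ (n + 1) x y * u0 y - 2 * (b ξ Set.univ n x y * u0 y) := by
    intro y _
    have hb := b_nonneg (A := Set.univ) h0 n x y
    have hCτ : 0 ≤ C * τ ^ n := by positivity
    by_cases hy : ((x - y).natAbs : ℝ) ≤ γ * n
    · have k1 := hn1 n hnn1 y hy
      have k2 := mul_le_mul_of_nonneg_right k1 (hu0 y)
      split_ifs with hy0
      · subst hy0
        have k3 := hn2 n hnn2 0 (by rw [sub_zero]; exact c2)
        have k4 : S / 2 * θ ^ n ≤ S / 2 * (b ξ Set.univ n x 0 * u0 0) := by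
          refine mul_le_mul_of_nonneg_left ?_ (by linarith)
          nlinarith
        nlinarith
      · have k5 : 0 ≤ S / 2 * (b ξ Set.univ n x y * u0 y) :=
          mul_nonneg (by linarith) (mul_nonneg hb (hu0 y))
        nlinarith
    · rw [not_le] at hy
      have hy0 : y ≠ 0 := by
        rintro rfl
        rw [sub_zero] at hy
        linarith
      rw [if_neg hy0]
      rcases lt_or_gt_of_ne hy0 with hneg | hpos
      · -- y < 0, y < x
        have hxy : y < x := by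
          by_contra hcon
          have h1 : (x - y).natAbs ≤ x.natAbs := by omega
          have h2 : ((x - y).natAbs : ℝ) ≤ x.natAbs := by exact_mod_cast h1
          linarith
        set m := (x - y).natAbs with hm
        have e1 : y = x - m := by omega
        have hmR : R ≤ m := by
          have : (R : ℝ) ≤ m := by linarith
          exact_mod_cast this
        have k1 := hR m hmR n
        rw [← e1] at k1
        have k2 : q ^ m ≤ (q ^ γ) ^ n := by
          rw [← Real.rpow_natCast q m, ← Real.rpow_natCast (q ^ γ) n, ← Real.rpow_mul hq0.le]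
          exact Real.rpow_le_rpow_of_exponent_ge hq0 hq1.le hy.le
        have k3 : b ξ Set.univ n x y ≤ τ ^ n := by
          rw [hτ, mul_pow]
          exact k1.trans (mul_le_mul_of_nonneg_left k2 (by positivity))
        have k4 := b_hold (A := Set.univ) h0 (Set.mem_univ x) n y
        have k5 : b ξ Set.univ n x y * u0 y ≤ C * τ ^ n := by
          rw [mul_comm C]
          exact mul_le_mul k3 (huC y) (hu0 y) (by positivity)
        have k6 := mul_le_mul_of_nonneg_right k4 (hu0 y)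
        linarith
      · rw [hup y hpos]
        simp only [mul_zero, sub_zero]
        linarith
  refine le_trans c4 (le_trans ?_ (Finset.sum_le_sum hterm))
  rw [Finset.sum_sub_distrib, Finset.sum_ite_eq' F (0:ℤ) (fun _ => S / 2 * θ ^ n), if_pos,
    Finset.sum_const, hF, Int.card_Icc, nsmul_eq_mul]
  · have : ((x + (n + 1) + 1 - (x - (n + 1))).toNat : ℝ) = 2 * n + 3 := by
      have h1 : (x + ((n : ℤ) + 1) + 1 - (x - ((n : ℤ) + 1))).toNat = 2 * n + 3 := by omega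
      rw [h1]; push_cast; ring
    rw [this]
  · refine hFn1 0 ?_
    rw [sub_zero]
    -- |x| ≤ n + 1 : need from c1? use near bound
    by_contra hcon
    rw [not_le] at hcon
    have k3 := hn2 n hnn2 0 (by rw [sub_zero]; exact c2)
    rw [b_far n x 0 (by rw [sub_zero]; omega)] at k3
    have : 0 < θ ^ n := by positivity
    linarith

end Pool.Agent.R952.PAM
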