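import Mathlib

/-!
# The discrete-time kernel of the parabolic Anderson model (helper952)

`op ξ A f` is the operator `H + 2` (discrete Laplacian plus potential plus 2) restricted to the
set `A`, and `b ξ A n x y` is the matrix entry of its `n`-th power.
-/

set_option autoImplicit false

namespace Pool.Agent.R952.PAM

open Finset
open scoped Classical

/-- The operator `(H + 2)` restricted to `A`. -/
noncomputable def op (ξ : ℤ → ℝ) (A : Set ℤ) (f : ℤ → ℝ) (x : ℤ) : ℝ :=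
  if x ∈ A then (f (x + 1) + f (x - 1)) / 2 + (1 + ξ x) * f x else 0

/-- The entries of the powers of `op ξ A`. -/
noncomputable def b (ξ : ℤ → ℝ) (A : Set ℤ) : ℕ → ℤ → ℤ → ℝ
  | 0, x, y => if x = y ∧ x ∈ A then 1 else 0
  | n + 1, x, y => op ξ A (fun z => b ξ A n z y) x

variable {ξ : ℤ → ℝ} {A : Set ℤ}

theorem b_zero (x y : ℤ) : b ξ A 0 x y = if x = y ∧ x ∈ A then 1 else 0 := rfl

theorem b_succ (n : ℕ) (x y : ℤ) : b ξ A (n + 1) x y = op ξ A (fun z => b ξ A n z y) x := rfl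

theorem b_succ_mem {x : ℤ} (hx : x ∈ A) (n : ℕ) (y : ℤ) :
    b ξ A (n + 1) x y =
      (b ξ A n (x + 1) y + b ξ A n (x - 1) y) / 2 + (1 + ξ x) * b ξ A n x y := by
  rw [b_succ, op, if_pos hx]

theorem op_mono {f g : ℤ → ℝ} (h0 : ∀ x, 0 ≤ ξ x) (h : ∀ x, f x ≤ g x) (x : ℤ) :
    op ξ A f x ≤ op ξ A g x := by
  unfold op
  split_ifs
  · have h1 := h (x + 1)
    have h2 := h (x - 1)
    have h3 := mul_le_mul_of_nonneg_left (h x) (by linarith [h0 x] : (0:ℝ) ≤ 1 + ξ x)
    linarith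
  · exact le_rfl

theorem op_smul (c : ℝ) (f : ℤ → ℝ) (x : ℤ) :
    op ξ A (fun z => c * f z) x = c * op ξ A f x := by
  unfold op
  split_ifs
  · ring
  · ring

theorem op_add (f g : ℤ → ℝ) (x : ℤ) :
    op ξ A (fun z => f z + g z) x = op ξ A f x + op ξ A g x := by
  unfold op
  split_ifs
  · ring
  · ring

theorem op_sum {ι : Type*} (s : Finset ι) (f : ι → ℤ → ℝ) (x : ℤ) :
    op ξ A (fun z => ∑ i ∈ s, f i z) x = ∑ i ∈ s, op ξ A (f i) x := by
  induction s using Finset.induction_on with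
  | empty => simp [op]
  | insert a s ha ih =>
    simp only [Finset.sum_insert ha]
    rw [op_add, ih]

theorem b_nonneg (h0 : ∀ x, 0 ≤ ξ x) (n : ℕ) (x y : ℤ) : 0 ≤ b ξ A n x y := by
  induction n generalizing x with
  | zero => rw [b_zero]; split_ifs <;> norm_num
  | succ n ih =>
    rw [b_succ]
    unfold op
    split_ifs
    · have h1 := ih (x + 1)
      have h2 := ih (x - 1)
      have h3 := mul_nonneg (by linarith [h0 x] : (0:ℝ) ≤ 1 + ξ x) (ih x)
      linarith
    · exact le_rfl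

theorem b_notMem {x : ℤ} (hx : x ∉ A) (n : ℕ) (y : ℤ) : b ξ A n x y = 0 := by
  cases n with
  | zero => rw [b_zero, if_neg]; exact fun h => hx h.2
  | succ n => rw [b_succ, op, if_neg hx]

theorem b_far (n : ℕ) (x y : ℤ) (h : n < (x - y).natAbs) : b ξ A n x y = 0 := by
  induction n generalizing x with
  | zero =>
    rw [b_zero, if_neg]
    rintro ⟨h1, -⟩
    subst h1
    simp at h
  | succ n ih =>
    rw [b_succ, op]
    split_ifs
    · rw [ih (x + 1) (by omega), ih (x - 1) (by omega), ih x (by omega)]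
      ring
    · rfl

/-- holding -/
theorem b_hold (h0 : ∀ x, 0 ≤ ξ x) {x : ℤ} (hx : x ∈ A) (n : ℕ) (y : ℤ) :
    b ξ A n x y ≤ b ξ A (n + 1) x y := by
  rw [b_succ_mem hx]
  have h1 := b_nonneg (A := A) h0 n (x + 1) y
  have h2 := b_nonneg (A := A) h0 n (x - 1) y
  have h3 := mul_nonneg (h0 x) (b_nonneg (A := A) h0 n x y)
  linarith

theorem b_step_up (h0 : ∀ x, 0 ≤ ξ x) {x : ℤ} (hx : x ∈ A) (n : ℕ) (y : ℤ) :
    (1 / 2) * b ξ A n (x + 1) y ≤ b ξ A (n + 1) x y := by
  rw [b_succ_mem hx]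
  have h2 := b_nonneg (A := A) h0 n (x - 1) y
  have h3 := mul_nonneg (h0 x) (b_nonneg (A := A) h0 n x y)
  have h4 := b_nonneg (A := A) h0 n x y
  linarith

theorem b_step_down (h0 : ∀ x, 0 ≤ ξ x) {x : ℤ} (hx : x ∈ A) (n : ℕ) (y : ℤ) :
    (1 / 2) * b ξ A n (x - 1) y ≤ b ξ A (n + 1) x y := by
  rw [b_succ_mem hx]
  have h2 := b_nonneg (A := A) h0 n (x + 1) y
  have h3 := mul_nonneg (h0 x) (b_nonneg (A := A) h0 n x y)
  have h4 := b_nonneg (A := A) h0 n x y
  linarith

/-- Travelling from `x` to `z`. -/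
theorem b_travel (h0 : ∀ x, 0 ≤ ξ x) (n : ℕ) (x z : ℤ) (h : (x - z).natAbs ≤ n) :
    (1 / 2 : ℝ) ^ (x - z).natAbs ≤ b ξ Set.univ n x z := by
  induction n generalizing x with
  | zero =>
    have : x = z := by omega
    subst this
    simp [b_zero]
  | succ n ih =>
    by_cases h1 : (x - z).natAbs ≤ n
    · exact (ih x h1).trans (b_hold h0 (Set.mem_univ x) n z)
    · rcases lt_or_ge x z with hxz | hxz
      · have h2 := ih (x + 1) (by omega)
        have h3 := b_step_up h0 (Set.mem_univ x) n z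
        have h4 : (x - z).natAbs = (x + 1 - z).natAbs + 1 := by omega
        rw [h4, pow_succ]
        nlinarith
      · have h2 := ih (x - 1) (by omega)
        have h3 := b_step_down h0 (Set.mem_univ x) n z
        have h4 : (x - z).natAbs = (x - 1 - z).natAbs + 1 := by omega
        rw [h4, pow_succ]
        nlinarith

/-- Supermultiplicativity. -/
theorem b_mul_le (h0 : ∀ x, 0 ≤ ξ x) (m n : ℕ) (x y z : ℤ) :
    b ξ A m x z * b ξ A n z y ≤ b ξ A (m + n) x y := by
  induction m generalizing x with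
  | zero =>
    rw [b_zero, Nat.zero_add]
    split_ifs with h
    · rw [one_mul, h.1]
    · rw [zero_mul]; exact b_nonneg h0 n x y
  | succ m ih =>
    have e : m + 1 + n = (m + n) + 1 := by ring
    rw [e, b_succ (m + n), b_succ m, mul_comm, ← op_smul]
    refine op_mono h0 (fun w => ?_) x
    rw [mul_comm]
    exact ih w

/-- Upper bound by a supersolution. -/
theorem b_le_super (h0 : ∀ x, 0 ≤ ξ x) {ψ : ℤ → ℝ} {M : ℝ} (hψ : ∀ x, 0 ≤ ψ x)
    (hM : 0 ≤ M) (hop : ∀ x, op ξ A ψ x ≤ M * ψ x) {y : ℤ} (hy : 1 ≤ ψ y) (n : ℕ) (x : ℤ) :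
    b ξ A n x y ≤ M ^ n * ψ x := by
  induction n generalizing x with
  | zero =>
    rw [b_zero, pow_zero, one_mul]
    split_ifs with h
    · rw [h.1]; exact hy
    · exact hψ x
  | succ n ih =>
    rw [b_succ]
    calc op ξ A (fun z => b ξ A n z y) x ≤ op ξ A (fun z => M ^ n * ψ z) x := op_mono h0 ih x
      _ = M ^ n * op ξ A ψ x := op_smul _ _ _
      _ ≤ M ^ n * (M * ψ x) := mul_le_mul_of_nonneg_left (hop x) (pow_nonneg hM n)
      _ = M ^ (n + 1) * ψ x := by ring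

/-- Lower bound by a subsolution. -/
theorem le_b_sub (h0 : ∀ x, 0 ≤ ξ x) {p : ℤ → ℝ} {μ c : ℝ} (hμ : 0 ≤ μ)  (hc : 0 ≤ c)
    (hop : ∀ x, μ * p x ≤ op ξ A p x) {y : ℤ} {n0 : ℕ} (h1 : ∀ x, c * p x ≤ b ξ A n0 x y)
    (k : ℕ) (x : ℤ) : c * μ ^ k * p x ≤ b ξ A (n0 + k) x y := by
  induction k generalizing x with
  | zero => simpa using h1 x
  | succ k ih =>
    rw [← Nat.add_assoc, b_succ]
    calc c * μ ^ (k + 1) * p x = (c * μ ^ k) * (μ * p x) := by ring
      _ ≤ (c * μ ^ k) * op ξ A p x :=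
          mul_le_mul_of_nonneg_left (hop x) (mul_nonneg hc (pow_nonneg hμ k))
      _ = op ξ A (fun z => c * μ ^ k * p z) x := (op_smul _ _ _).symm
      _ ≤ _ := op_mono h0 ih x

/-! ### Last exit decomposition -/

theorem last_exit_aux (x y : ℤ) (hA : Set.Iic x ⊆ A) (hy : y ≤ x - 1) (n : ℕ) (x' : ℤ) :
    b ξ A (n + 1) x' y = b ξ (Set.Iic (x - 1)) (n + 1) x' y +
      (1 / 2) * ∑ q ∈ antidiagonal n, b ξ A q.1 x' x * b ξ (Set.Iic (x - 1)) q.2 (x - 1) y := by
  have hxA : x ∈ A := hA (Set.mem_Iic.2 le_rfl)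
  -- the difference of the two operators on a function supported on `Iic (x-1)`
  have key : ∀ (g : ℤ → ℝ), (∀ z, x ≤ z → g z = 0) → ∀ z,
      op ξ A g z = op ξ (Set.Iic (x - 1)) g z + (1 / 2) * (b ξ A 0 z x * g (x - 1)) := by
    intro g hg z
    rw [b_zero]
    unfold op
    rcases lt_trichotomy z x with h | h | h
    · rw [if_pos (hA (Set.mem_Iic.2 h.le)), if_pos (Set.mem_Iic.2 (by omega)), if_neg]
      · ring
      · rintro ⟨h1, -⟩; omega
    · subst h
      rw [if_pos hxA, if_neg (by simp), if_pos ⟨rfl, hxA⟩, hg z le_rfl, hg (z + 1) (by omega)]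
      ring
    · rw [if_neg (show ¬ (z = x ∧ z ∈ A) from fun h1 => by omega),
        if_neg (show z ∉ Set.Iic (x - 1) by simp; omega)]
      split_ifs
      · rw [hg z (by omega), hg (z + 1) (by omega), hg (z - 1) (by omega)]
        ring
      · ring
  have hg : ∀ n z, x ≤ z → b ξ (Set.Iic (x - 1)) n z y = 0 := fun n z hz =>
    b_notMem (by simp; omega) n y
  induction n generalizing x' with
  | zero =>
    rw [b_succ, b_succ]
    have e : (fun z => b ξ A 0 z y) = fun z => b ξ (Set.Iic (x - 1)) 0 z y := by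
      funext z
      rw [b_zero, b_zero]
      by_cases h : z = y
      · subst h
        rw [if_pos ⟨rfl, hA (Set.mem_Iic.2 (by omega))⟩, if_pos ⟨rfl, Set.mem_Iic.2 hy⟩]
      · rw [if_neg (fun h1 => h h1.1), if_neg (fun h1 => h h1.1)]
    rw [e, key _ (hg 0) x']
    simp
  | succ n ih =>
    rw [b_succ]
    have e : (fun z => b ξ A (n + 1) z y) = fun z => b ξ (Set.Iic (x - 1)) (n + 1) z y +
      (1 / 2) * ∑ q ∈ antidiagonal n, b ξ A q.1 z x * b ξ (Set.Iic (x - 1)) q.2 (x - 1) y := by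
      funext z; exact ih z
    rw [e, op_add, key _ (hg (n + 1)) x', op_smul, op_sum, Finset.Nat.sum_antidiagonal_succ,
      ← b_succ]
    have e2 : ∀ q : ℕ × ℕ, op ξ A (fun z => b ξ A q.1 z x *
        b ξ (Set.Iic (x - 1)) q.2 (x - 1) y) x' =
        b ξ A (q.1 + 1) x' x * b ξ (Set.Iic (x - 1)) q.2 (x - 1) y := by
      intro q
      have : (fun z => b ξ A q.1 z x * b ξ (Set.Iic (x - 1)) q.2 (x - 1) y) =
        fun z => b ξ (Set.Iic (x - 1)) q.2 (x - 1) y * b ξ A q.1 z x := by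
        funext z; ring
      rw [this, op_smul, ← b_succ]
      ring
    simp only [e2]
    ring

theorem last_exit (x y : ℤ) (hA : Set.Iic x ⊆ A) (hy : y ≤ x - 1) (n : ℕ) :
    b ξ A (n + 1) x y =
      (1 / 2) * ∑ q ∈ antidiagonal n, b ξ A q.1 x x * b ξ (Set.Iic (x - 1)) q.2 (x - 1) y := by
  rw [last_exit_aux x y hA hy n x, b_notMem (by simp), zero_add]

end Pool.Agent.R952.PAM
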