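import Pool.Agent.R952.PAM.Sol

/-!
# Almost sure properties of the i.i.d. potential (helper952)
-/

set_option autoImplicit false

namespace Pool.Agent.R952.PAM

open Finset Filter Topology MeasureTheory ProbabilityTheory
open scoped Classical

variable {Ω : Type*} [MeasurableSpace Ω] {P : Measure Ω} [IsProbabilityMeasure P]
  {ξ : ℤ → Ω → ℝ}

omit [IsProbabilityMeasure P] in
theorem meas_eq (hid : ∀ x, IdentDistrib (ξ x) (ξ 0) P P) {B : Set ℝ} (hB : MeasurableSet B)
    (x : ℤ) : P (ξ x ⁻¹' B) = P (ξ 0 ⁻¹' B) := (hid x).measure_mem_eq hB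

/-- Almost surely there is a long interval on which the potential is large. -/
theorem ae_island (hmeas : ∀ x, Measurable (ξ x)) (hindep : iIndepFun ξ P)
    (hid : ∀ x, IdentDistrib (ξ x) (ξ 0) P P) {a : ℝ} (ha : P (ξ 0 ⁻¹' Set.Ici a) ≠ 0) (l : ℕ) :
    ∀ᵐ ω ∂P, ∃ z : ℤ, ∀ w : ℤ, z ≤ w → w < z + l → a ≤ ξ w ω := by
  set T : ℕ → Finset ℤ := fun j => Finset.Ico ((j : ℤ) * l) ((j : ℤ) * l + l) with hT
  set E : ℕ → Set Ω := fun j => ⋂ w ∈ T j, ξ w ⁻¹' Set.Ici a with hE
  set m : ℤ → MeasurableSpace Ω := fun w => MeasurableSpace.comap (ξ w) inferInstance with hm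
  have hcard : ∀ j, (T j).card = l := by
    intro j
    simp [hT]
  have hmeasE : ∀ j, MeasurableSet (E j) := fun j =>
    Finset.measurableSet_biInter _ (fun w _ => hmeas w measurableSet_Ici)
  have hPE : ∀ j, P (E j) = (P (ξ 0 ⁻¹' Set.Ici a)) ^ l := by
    intro j
    have h1 := hindep.measure_inter_preimage_eq_mul (T j) (sets := fun _ => Set.Ici a)
      (fun _ _ => measurableSet_Ici)
    rw [hE]
    simp only
    rw [h1, Finset.prod_congr rfl (fun w _ => meas_eq hid measurableSet_Ici w),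
      Finset.prod_const, hcard]
  set r : ENNReal := P (E 0)ᶜ with hr
  have hPEc : ∀ j, P (E j)ᶜ = r := by
    intro j
    rw [hr, prob_compl_eq_one_sub (hmeasE j), prob_compl_eq_one_sub (hmeasE 0), hPE, hPE]
  have hr1 : r < 1 := by
    rw [hr, prob_compl_eq_one_sub (hmeasE 0), hPE]
    refine ENNReal.sub_lt_self ENNReal.one_ne_top one_ne_zero (pow_ne_zero _ ha)
  have hle : ∀ w, m w ≤ (inferInstance : MeasurableSpace Ω) := fun w => (hmeas w).comap_le
  have hiI : iIndep m P := hindep.iIndep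
  -- measurability with respect to the σ-algebra of a set of sites
  have hEm : ∀ (j : ℕ) (B : Set ℤ), (∀ w ∈ T j, w ∈ B) → MeasurableSet[⨆ w ∈ B, m w] (E j) := by
    intro j B hB
    refine @Finset.measurableSet_biInter Ω ℤ (⨆ w ∈ B, m w) _ (T j) (fun w hw => ?_)
    have h1 : MeasurableSet[m w] (ξ w ⁻¹' Set.Ici a) := ⟨Set.Ici a, measurableSet_Ici, rfl⟩
    exact (le_iSup₂_of_le (f := fun w (_ : w ∈ B) => m w) w (hB w hw) le_rfl) _ h1
  have hq : ∀ J : ℕ, P (⋂ j ∈ range J, (E j)ᶜ) = r ^ J := by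
    intro J
    induction J with
    | zero => simp
    | succ J ih =>
      have e1 : (⋂ j ∈ range (J + 1), (E j)ᶜ) = (⋂ j ∈ range J, (E j)ᶜ) ∩ (E J)ᶜ := by
        ext ω
        simp only [Set.mem_iInter, Finset.mem_range, Set.mem_inter_iff]
        constructor
        · intro h
          exact ⟨fun j hj => h j (by omega), h J (by omega)⟩
        · rintro ⟨h1, h2⟩ j hj
          rcases Nat.lt_succ_iff_lt_or_eq.1 hj with h | h
          · exact h1 j h
          · rw [h]; exact h2
      have hdisj : Disjoint (Set.Iio ((J : ℤ) * l)) (Set.Ici ((J : ℤ) * l)) := by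
        rw [Set.disjoint_left]
        intro w hw1 hw2
        rw [Set.mem_Iio] at hw1
        rw [Set.mem_Ici] at hw2
        omega
      have hInd := indep_iSup_of_disjoint hle hiI hdisj
      have hA : MeasurableSet[⨆ w ∈ Set.Iio ((J : ℤ) * l), m w] (⋂ j ∈ range J, (E j)ᶜ) := by
        refine @Finset.measurableSet_biInter Ω ℕ (⨆ w ∈ Set.Iio ((J : ℤ) * l), m w) _ (range J)
          (fun j hj => ?_)
        refine @MeasurableSet.compl Ω _ (⨆ w ∈ Set.Iio ((J : ℤ) * l), m w) (hEm j _ ?_)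
        intro w hw
        rw [Finset.mem_range] at hj
        have h1 := (Finset.mem_Ico.1 hw).2
        have h2 : (j : ℤ) * l + l ≤ (J : ℤ) * l := by
          have : (j : ℤ) + 1 ≤ J := by exact_mod_cast hj
          nlinarith [Int.natCast_nonneg l]
        exact lt_of_lt_of_le h1 h2
      have hB : MeasurableSet[⨆ w ∈ Set.Ici ((J : ℤ) * l), m w] (E J)ᶜ := by
        refine @MeasurableSet.compl Ω _ (⨆ w ∈ Set.Ici ((J : ℤ) * l), m w) (hEm J _ ?_)
        intro w hw
        exact (Finset.mem_Ico.1 hw).1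
      have hmul : P ((⋂ j ∈ range J, (E j)ᶜ) ∩ (E J)ᶜ) = P (⋂ j ∈ range J, (E j)ᶜ) * P (E J)ᶜ :=
        (Indep_iff _ _ P).1 hInd _ _ hA hB
      rw [e1, hmul, ih, hPEc, pow_succ]
  have hzero : P (⋂ j, (E j)ᶜ) = 0 := by
    have h1 : ∀ J : ℕ, P (⋂ j, (E j)ᶜ) ≤ r ^ J := by
      intro J
      rw [← hq J]
      refine measure_mono (fun ω hω => ?_)
      rw [Set.mem_iInter] at hω
      simp only [Set.mem_iInter]
      exact fun j _ => hω j
    have h2 : Tendsto (fun J : ℕ => r ^ J) atTop (𝓝 0) :=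
      ENNReal.tendsto_pow_atTop_nhds_zero_of_lt_one hr1
    exact le_antisymm (ge_of_tendsto' h2 h1) zero_le
  have h3 : ∀ᵐ ω ∂P, ω ∉ ⋂ j, (E j)ᶜ := measure_eq_zero_iff_ae_notMem.1 hzero
  filter_upwards [h3] with ω hω
  rw [Set.mem_iInter, not_forall] at hω
  obtain ⟨j, hj⟩ := hω
  rw [Set.mem_compl_iff, not_not] at hj
  refine ⟨(j : ℤ) * l, fun w h1 h2 => ?_⟩
  simp only [hE, Set.mem_iInter] at hj
  exact hj w (Finset.mem_Ico.2 ⟨h1, h2⟩)

theorem card_filter_Ioc (p : ℤ → Prop) (x : ℤ) (m : ℕ) :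
    (((Finset.Ioc (x - m) x).filter p).card : ℝ) =
      ∑ i ∈ range m, (if p (x - i) then (1:ℝ) else 0) := by
  induction m with
  | zero => simp
  | succ m ih =>
    have e : Finset.Ioc (x - ((m + 1 : ℕ) : ℤ)) x = insert (x - m) (Finset.Ioc (x - m) x) := by
      ext z
      simp only [Finset.mem_Ioc, Finset.mem_insert]
      push_cast
      omega
    have hn : x - (m : ℤ) ∉ (Finset.Ioc (x - m) x).filter p := by simp
    rw [e, Finset.filter_insert, Finset.sum_range_succ, ← ih]
    split_ifs with h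
    · rw [Finset.card_insert_of_notMem hn]; push_cast; ring
    · rw [add_zero]

/-- Almost surely the low sites have a positive density on the left of every site. -/
theorem ae_low (hmeas : ∀ x, Measurable (ξ x)) (hindep : iIndepFun ξ P)
    (hid : ∀ x, IdentDistrib (ξ x) (ξ 0) P P) {s : ℝ} (hs : P (ξ 0 ⁻¹' Set.Iic s) ≠ 0) :
    ∀ᵐ ω ∂P, ∀ x : ℤ, ∃ c : ℝ, 0 < c ∧ ∃ R : ℕ, ∀ m : ℕ, R ≤ m →
      c * m ≤ (((Finset.Ioc (x - m) x).filter (fun z => ξ z ω ≤ s)).card : ℝ) := by
  rw [ae_all_iff]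
  intro x
  set g : ℝ → ℝ := fun v => if v ≤ s then 1 else 0 with hg
  have hgm : Measurable g := Measurable.ite measurableSet_Iic measurable_const measurable_const
  set X : ℕ → Ω → ℝ := fun i => g ∘ ξ (x - i) with hX
  have hXm : ∀ i, Measurable (X i) := fun i => hgm.comp (hmeas _)
  have hint : Integrable (X 0) P := by
    refine Integrable.of_bound (C := 1) (hXm 0).aestronglyMeasurable
      (Eventually.of_forall (fun ω => ?_))
    simp only [hX, hg, Function.comp]
    split_ifs <;> simp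
  have hind : Pairwise (Function.onFun (fun f g => IndepFun f g P) X) := by
    intro i j hij
    have hne : x - (i : ℤ) ≠ x - j := by
      intro h
      apply hij
      have : (i : ℤ) = j := by linarith
      exact_mod_cast this
    exact (hindep.indepFun hne).comp hgm hgm
  have hident : ∀ i, IdentDistrib (X i) (X 0) P P := by
    intro i
    have h1 : IdentDistrib (ξ (x - i)) (ξ (x - (0:ℕ))) P P := (hid _).trans (hid _).symm
    exact h1.comp hgm
  have hlim := strong_law_ae_real X hint hind hident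
  have hE : 0 < ∫ ω, X 0 ω ∂P := by
    have e : (fun ω => X 0 ω) = (ξ x ⁻¹' Set.Iic s).indicator (fun _ => (1:ℝ)) := by
      funext ω
      simp only [hX, hg, Function.comp, Set.indicator_apply, Set.mem_preimage, Set.mem_Iic,
        Nat.cast_zero, sub_zero]
    rw [e, integral_indicator_const _ (hmeas x measurableSet_Iic), smul_eq_mul, mul_one,
      Measure.real, meas_eq hid measurableSet_Iic x]
    exact ENNReal.toReal_pos hs (measure_ne_top _ _)
  filter_upwards [hlim] with ω hω
  set π : ℝ := ∫ ω, X 0 ω ∂P with hπ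
  have hev := hω.eventually (lt_mem_nhds (show π / 2 < π by linarith))
  obtain ⟨R, hR⟩ := eventually_atTop.1 hev
  refine ⟨π / 2, by linarith, max R 1, fun m hm => ?_⟩
  have h1 := hR m (le_trans (le_max_left _ _) hm)
  have hm1 : 1 ≤ m := le_trans (le_max_right _ _) hm
  have hmpos : (0 : ℝ) < m := by exact_mod_cast hm1
  rw [lt_div_iff₀ hmpos] at h1
  rw [card_filter_Ioc]
  refine h1.le.trans (le_of_eq ?_)
  refine Finset.sum_congr rfl (fun i _ => ?_)
  simp only [hX, hg, Function.comp]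

end Pool.Agent.R952.PAM
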