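import Pool.Agent.R952.PAM.Cls

/-!
# The ratio of consecutive entries of the kernel (helper952)
-/

set_option autoImplicit false

namespace Pool.Agent.R952.PAM

open Finset
open scoped Classical

variable {ξ : ℤ → ℝ} {A : Set ℤ}

theorem antidiag_shift (D : ℕ) : ∀ (F : ℕ → ℕ → ℝ), (∀ j k, k < D → F j k = 0) → ∀ n : ℕ,
    ∑ q ∈ antidiagonal (n + D), F q.1 q.2 = ∑ q ∈ antidiagonal n, F q.1 (q.2 + D) := by
  induction D with
  | zero => intro F _ n; rfl
  | succ D ih =>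
    intro F hF n
    have h1 := ih (fun j k => F j (k + 1)) (fun j k hk => hF j (k + 1) (by omega)) n
    have e : n + (D + 1) = (n + D) + 1 := by ring
    rw [e, Finset.Nat.sum_antidiagonal_succ' (f := fun q : ℕ × ℕ => F q.1 q.2)]
    simp only
    rw [hF _ 0 (by omega), zero_add, h1]
    rfl

theorem cls_diag (h0 : ∀ x, 0 ≤ ξ x) {x : ℤ} (hx : x ∈ A) : Cls 0 (fun n => b ξ A n x x) := by
  have h00 : b ξ A 0 x x = 1 := by rw [b_zero, if_pos ⟨rfl, hx⟩]
  have hge : ∀ n, 1 ≤ b ξ A n x x := by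
    intro n
    induction n with
    | zero => rw [h00]
    | succ n ih => exact ih.trans (b_hold h0 hx n x)
  exact cls_zero h00 (hge 1) (fun n => lt_of_lt_of_le one_pos (hge n))
    (fun n => b_logconvex h0 hx n)

theorem cls_b (h0 : ∀ x, 0 ≤ ξ x) (D : ℕ) : ∀ (A : Set ℤ) (x : ℤ), Set.Iic x ⊆ A →
    Cls D (fun n => 2 ^ D * b ξ A (n + D) x (x - D)) := by
  induction D with
  | zero =>
    intro A x hA
    have := cls_diag h0 (A := A) (x := x) (hA (Set.mem_Iic.2 le_rfl))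
    simpa using this
  | succ D ih =>
    intro A x hA
    have h1 := cls_diag h0 (A := A) (x := x) (hA (Set.mem_Iic.2 le_rfl))
    have h2 := ih (Set.Iic (x - 1)) (x - 1) subset_rfl
    have h3 := cls_conv h1 h2
    have e : (fun n => (2:ℝ) ^ (D + 1) * b ξ A (n + (D + 1)) x (x - ((D + 1 : ℕ) : ℤ))) =
        fun n => ∑ q ∈ antidiagonal n, b ξ A q.1 x x *
          (2 ^ D * b ξ (Set.Iic (x - 1)) (q.2 + D) (x - 1) (x - 1 - D)) := by
      funext n
      have hy : x - ((D + 1 : ℕ) : ℤ) = x - 1 - D := by push_cast; ring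
      rw [hy, ← Nat.add_assoc, last_exit x (x - 1 - D) hA (by omega) (n + D),
        antidiag_shift D (fun j k => b ξ A j x x * b ξ (Set.Iic (x - 1)) k (x - 1) (x - 1 - D))
          (fun j k hk => by rw [b_far k _ _ (by omega), mul_zero]) n, ← mul_assoc,
        Finset.mul_sum]
      refine Finset.sum_congr rfl (fun q _ => ?_)
      rw [pow_succ]; ring
    rw [e]
    exact h3

theorem ratio_le_aux (h0 : ∀ x, 0 ≤ ξ x) (x : ℤ) (D m : ℕ) :
    b ξ Set.univ (m + D) x (x - D) * (b ξ Set.univ (m + D) x (x - D) /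
      ((m + D).choose D : ℝ)) ^ (1 / (((m + D : ℕ) : ℝ) + 1)) ≤
      b ξ Set.univ (m + D + 1) x (x - D) := by
  have h := (cls_b h0 D Set.univ x (Set.subset_univ _)).ineq m
  have hpos := (cls_b h0 D Set.univ x (Set.subset_univ _)).pos m
  have e : m + 1 + D = m + D + 1 := by ring
  rw [e] at h
  set B := b ξ Set.univ (m + D) x (x - D) with hB
  set B' := b ξ Set.univ (m + D + 1) x (x - D) with hB'
  have hBpos : 0 < B := by
    by_contra hcon
    have : (2:ℝ) ^ D * B ≤ 0 := mul_nonpos_of_nonneg_of_nonpos (by positivity) (not_lt.1 hcon)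
    linarith
  have hB'0 : 0 ≤ B' := b_nonneg h0 _ _ _
  have hC : (0 : ℝ) < ((m + D).choose D : ℝ) := by
    exact_mod_cast Nat.choose_pos (Nat.le_add_left D m)
  set C : ℝ := ((m + D).choose D : ℝ) with hCdef
  have e2 : (((m + D : ℕ) : ℝ) + 1) = (m : ℝ) + D + 1 := by push_cast; ring
  rw [e2]
  set ε : ℝ := 1 / ((m : ℝ) + D + 1) with hε
  have hε0 : 0 ≤ ε := by rw [hε]; positivity
  have h2 : (B / C) ^ ε ≤ (2 ^ D * B / C) ^ ε := by
    refine Real.rpow_le_rpow (by positivity) ?_ hε0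
    refine div_le_div_of_nonneg_right ?_ hC.le
    have : (1:ℝ) ≤ 2 ^ D := one_le_pow₀ (by norm_num)
    nlinarith
  have h3 : 0 ≤ (B / C) ^ ε := by positivity
  -- divide h by 2^D
  have h4 : ((m : ℝ) + D + 1) * (B * (2 ^ D * B / C) ^ ε) ≤ ((m : ℝ) + 1) * B' := by
    have p : (0:ℝ) < 2 ^ D := by positivity
    have : (2:ℝ) ^ D * (((m : ℝ) + D + 1) * (B * (2 ^ D * B / C) ^ ε)) ≤
        2 ^ D * (((m : ℝ) + 1) * B') := by
      calc _ = ((m : ℝ) + D + 1) * (2 ^ D * B * (2 ^ D * B / C) ^ ε) := by ring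
        _ ≤ _ := h
        _ = _ := by ring
    exact le_of_mul_le_mul_left this p
  have h5 : ((m : ℝ) + D + 1) * (B * (B / C) ^ ε) ≤ ((m : ℝ) + D + 1) * B' := by
    calc ((m : ℝ) + D + 1) * (B * (B / C) ^ ε) ≤ ((m : ℝ) + D + 1) * (B * (2 ^ D * B / C) ^ ε) := by
          gcongr
      _ ≤ ((m : ℝ) + 1) * B' := h4
      _ ≤ ((m : ℝ) + D + 1) * B' := by
          refine mul_le_mul_of_nonneg_right ?_ hB'0
          have : (0:ℝ) ≤ D := Nat.cast_nonneg D
          linarith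
  exact le_of_mul_le_mul_left h5 (by positivity)

theorem ratio_le (h0 : ∀ x, 0 ≤ ξ x) (x y : ℤ) (n : ℕ) (h : (x - y).natAbs ≤ n) :
    b ξ Set.univ n x y * (b ξ Set.univ n x y /
      (n.choose (x - y).natAbs : ℝ)) ^ (1 / ((n : ℝ) + 1)) ≤ b ξ Set.univ (n + 1) x y := by
  rcases le_total y x with hyx | hyx
  · have e1 : y = x - ((x - y).natAbs : ℤ) := by omega
    have e2 : n = (n - (x - y).natAbs) + (x - y).natAbs := by omega
    have := ratio_le_aux h0 x (x - y).natAbs (n - (x - y).natAbs)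
    rw [← e1, ← e2] at this
    exact this
  · have s : ∀ n, b ξ Set.univ n x y = b ξ Set.univ n y x := fun n =>
      b_symm (Set.mem_univ x) (Set.mem_univ y) n
    rw [s, s]
    have e0 : (x - y).natAbs = (y - x).natAbs := by omega
    rw [e0] at h ⊢
    have e1 : x = y - ((y - x).natAbs : ℤ) := by omega
    have e2 : n = (n - (y - x).natAbs) + (y - x).natAbs := by omega
    have := ratio_le_aux h0 y (y - x).natAbs (n - (y - x).natAbs)
    rw [← e1, ← e2] at this
    exact this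

theorem ratio_ge (h0 : ∀ x, 0 ≤ ξ x) (x y : ℤ) (n : ℕ) (h : (x - y).natAbs ≤ n) {θ : ℝ}
    (hθ : 0 ≤ θ) (hb : θ ^ (n + 1) * (n.choose (x - y).natAbs : ℝ) ≤ b ξ Set.univ n x y) :
    θ * b ξ Set.univ n x y ≤ b ξ Set.univ (n + 1) x y := by
  refine le_trans ?_ (ratio_le h0 x y n h)
  have hC : (0 : ℝ) < (n.choose (x - y).natAbs : ℝ) := by exact_mod_cast Nat.choose_pos h
  have hB := b_nonneg (A := Set.univ) h0 n x y
  rw [mul_comm]
  refine mul_le_mul_of_nonneg_left ?_ hB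
  have h1 : θ ^ (n + 1) ≤ b ξ Set.univ n x y / (n.choose (x - y).natAbs : ℝ) := by
    rw [le_div_iff₀ hC]; exact hb
  have h2 := Real.rpow_le_rpow (by positivity) h1 (by positivity : (0:ℝ) ≤ 1 / ((n:ℝ) + 1))
  have h3 : (θ ^ (n + 1)) ^ (1 / ((n:ℝ) + 1)) = θ := by
    have := Real.pow_rpow_inv_natCast (x := θ) hθ (n := n + 1) (by omega)
    push_cast at this
    rw [one_div]
    exact this
  rw [h3] at h2
  exact h2

end Pool.Agent.R952.PAM
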