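import Pool.Agent.R952.PAM.Disc

/-!
# The continuous-time solution (helper952)
-/

set_option autoImplicit false

namespace Pool.Agent.R952.PAM

open Finset Filter Topology
open scoped Classical

variable {ξ : ℤ → ℝ} {S : ℝ}

/-- The discrete Laplacian `Δ_d f (x) = (f (x+1) + f (x-1) - 2 f x) / 2`. -/
noncomputable def lap (f : ℤ → ℝ) (x : ℤ) : ℝ := (f (x + 1) + f (x - 1) - 2 * f x) / 2

/-- `u` is the solution of the parabolic Anderson model with potential `ξ` and initial
configuration `f0`: `u (0, x) = f0 x`, the function `u` is bounded on `[0, T] × ℤ` for every `T`,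
and `∂_t u (t, x) = Δ_d u (t, x) + ξ x * u (t, x)` for every `t ≥ 0` (at `t = 0` one-sided). -/
structure IsPAM (ξ : ℤ → ℝ) (f0 : ℤ → ℝ) (u : ℝ → ℤ → ℝ) : Prop where
  init : ∀ x, u 0 x = f0 x
  bdd : ∀ T : ℝ, ∃ C : ℝ, ∀ t ∈ Set.Icc (0:ℝ) T, ∀ x, |u t x| ≤ C
  eqn : ∀ t : ℝ, 0 ≤ t → ∀ x,
    HasDerivWithinAt (fun s => u s x) (lap (u t) x + ξ x * u t x) (Set.Ici 0) t

/-! ### exponential series -/

noncomputable def ser (a : ℕ → ℝ) (t : ℝ) : ℝ := ∑' n : ℕ, t ^ n / (n.factorial : ℝ) * a n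

/-- geometric growth -/
def Geo (a : ℕ → ℝ) : Prop := ∃ K R : ℝ, 0 ≤ K ∧ 0 ≤ R ∧ ∀ n, |a n| ≤ K * R ^ n

theorem Geo.shift {a : ℕ → ℝ} (h : Geo a) : Geo (fun n => a (n + 1)) := by
  obtain ⟨K, R, hK, hR, h⟩ := h
  exact ⟨K * R, R, by positivity, hR, fun n => (h (n + 1)).trans (by rw [pow_succ]; nlinarith)⟩

theorem ser_summable {a : ℕ → ℝ} (h : Geo a) (t : ℝ) :
    Summable (fun n : ℕ => t ^ n / (n.factorial : ℝ) * a n) := by
  obtain ⟨K, R, hK, hR, h⟩ := h
  refine Summable.of_norm_bounded (g := fun n : ℕ => K * ((|t| * R) ^ n / (n.factorial : ℝ)))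
    ((Real.summable_pow_div_factorial _).mul_left K) (fun n => ?_)
  rw [Real.norm_eq_abs, abs_mul, abs_div, abs_pow, Nat.abs_cast]
  calc |t| ^ n / (n.factorial : ℝ) * |a n| ≤ |t| ^ n / (n.factorial : ℝ) * (K * R ^ n) :=
        mul_le_mul_of_nonneg_left (h n) (by positivity)
    _ = K * ((|t| * R) ^ n / (n.factorial : ℝ)) := by rw [mul_pow]; ring

theorem ser_hasDerivAt {a : ℕ → ℝ} (h : Geo a) (t : ℝ) :
    HasDerivAt (ser a) (ser (fun n => a (n + 1)) t) t := by
  have h' := h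
  obtain ⟨K, R, hK, hR, hb⟩ := h
  set T : ℝ := |t| + 1 with hT
  have hT0 : 0 < T := by rw [hT]; positivity
  have hu : Summable (fun n : ℕ => (n : ℝ) * T ^ (n - 1) / (n.factorial : ℝ) * (K * R ^ n)) := by
    rw [← summable_nat_add_iff 1]
    have : (fun n : ℕ => ((n + 1 : ℕ) : ℝ) * T ^ (n + 1 - 1) / ((n + 1).factorial : ℝ) *
        (K * R ^ (n + 1))) = fun n : ℕ => (K * R) * ((T * R) ^ n / (n.factorial : ℝ)) := by
      funext n
      rw [Nat.factorial_succ, Nat.add_sub_cancel]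
      push_cast
      have : ((n : ℝ) + 1) ≠ 0 := by positivity
      field_simp
      ring
    rw [this]
    exact (Real.summable_pow_div_factorial _).mul_left _
  have hd := hasDerivAt_tsum_of_isPreconnected (𝕜 := ℝ) (F := ℝ)
    (g := fun (n : ℕ) (s : ℝ) => s ^ n / (n.factorial : ℝ) * a n)
    (g' := fun (n : ℕ) (s : ℝ) => (n : ℝ) * s ^ (n - 1) / (n.factorial : ℝ) * a n)
    (t := Metric.ball (0:ℝ) T) (y₀ := 0) (y := t) hu Metric.isOpen_ball
    (convex_ball (0:ℝ) T).isPreconnected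
    (fun n s _ => ((hasDerivAt_pow n s).div_const _).mul_const _)
    (fun n s hs => by
      rw [Real.norm_eq_abs, abs_mul, abs_div, abs_mul, Nat.abs_cast, abs_pow, Nat.abs_cast]
      have hs' : |s| ≤ T := by
        have := mem_ball_zero_iff.1 hs
        rw [Real.norm_eq_abs] at this
        exact this.le
      have h1 : |s| ^ (n - 1) ≤ T ^ (n - 1) := pow_le_pow_left₀ (abs_nonneg s) hs' _
      refine mul_le_mul ?_ (hb n) (abs_nonneg _) (by positivity)
      gcongr)
    (Metric.mem_ball_self hT0) (ser_summable h' 0)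
    (by rw [mem_ball_zero_iff, Real.norm_eq_abs, hT]; linarith)
  have e : ∑' n : ℕ, (n : ℝ) * t ^ (n - 1) / (n.factorial : ℝ) * a n =
      ser (fun n => a (n + 1)) t := by
    have hs : Summable (fun n : ℕ => (n : ℝ) * t ^ (n - 1) / (n.factorial : ℝ) * a n) := by
      refine Summable.of_norm_bounded hu (fun n => ?_)
      rw [Real.norm_eq_abs, abs_mul, abs_div, abs_mul, Nat.abs_cast, abs_pow, Nat.abs_cast]
      have hs' : |t| ≤ T := by rw [hT]; linarith
      have h1 : |t| ^ (n - 1) ≤ T ^ (n - 1) := pow_le_pow_left₀ (abs_nonneg t) hs' _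
      refine mul_le_mul ?_ (hb n) (abs_nonneg _) (by positivity)
      gcongr
    rw [hs.tsum_eq_zero_add]
    simp only [Nat.cast_zero, zero_mul, zero_div, zero_add]
    unfold ser
    congr 1
    funext n
    rw [Nat.factorial_succ, Nat.add_sub_cancel]
    push_cast
    have : ((n : ℝ) + 1) ≠ 0 := by positivity
    field_simp
  rw [e] at hd
  exact hd

/-! ### The solution -/

noncomputable def sol (ξ : ℤ → ℝ) (f0 : ℤ → ℝ) (t : ℝ) (x : ℤ) : ℝ :=
  Real.exp (-(2 * t)) * ser (fun n => U ξ f0 n x) t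

theorem U_bound {C : ℝ} (h0 : ∀ x, 0 ≤ ξ x) (hS : ∀ x, ξ x ≤ S) {f0 : ℤ → ℝ}
    (hf : ∀ x, |f0 x| ≤ C) (n : ℕ) (x : ℤ) : |U ξ f0 n x| ≤ C * (2 + S) ^ n := by
  have hC : 0 ≤ C := (abs_nonneg _).trans (hf 0)
  have hS0 : 0 ≤ S := (h0 0).trans (hS 0)
  induction n generalizing x with
  | zero => simpa [U] using hf x
  | succ n ih =>
    have e : U ξ f0 (n + 1) x = op ξ Set.univ (U ξ f0 n) x := rfl
    rw [e, op, if_pos (Set.mem_univ x)]
    have h1 := ih (x + 1)
    have h2 := ih (x - 1)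
    have h3 := ih x
    set B := C * (2 + S) ^ n with hB
    have hB0 : 0 ≤ B := by rw [hB]; positivity
    have h4 : |(1 + ξ x) * U ξ f0 n x| ≤ (1 + S) * B := by
      rw [abs_mul, abs_of_nonneg (by linarith [h0 x] : (0:ℝ) ≤ 1 + ξ x)]
      exact mul_le_mul (by linarith [hS x]) h3 (abs_nonneg _) (by linarith)
    have h5 : C * (2 + S) ^ (n + 1) = B + (1 + S) * B := by rw [hB]; ring
    rw [h5]
    rw [abs_le] at h1 h2 h4 ⊢
    constructor <;> linarith

theorem U_geo {C : ℝ} (h0 : ∀ x, 0 ≤ ξ x) (hS : ∀ x, ξ x ≤ S) {f0 : ℤ → ℝ}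
    (hf : ∀ x, |f0 x| ≤ C) (x : ℤ) : Geo (fun n => U ξ f0 n x) :=
  ⟨C, 2 + S, (abs_nonneg _).trans (hf 0), by have := (h0 0).trans (hS 0); linarith,
    fun n => U_bound h0 hS hf n x⟩

theorem exp_hasDerivAt (t : ℝ) :
    HasDerivAt (fun s => Real.exp (-(2 * s))) (-(2 * Real.exp (-(2 * t)))) t := by
  have h1 : HasDerivAt (fun s : ℝ => -(2 * s)) (-(2 * 1)) t :=
    ((hasDerivAt_id t).const_mul 2).neg
  have h2 := h1.exp
  exact h2.congr_deriv (by ring)

theorem sol_hasDerivAt {C : ℝ} (h0 : ∀ x, 0 ≤ ξ x) (hS : ∀ x, ξ x ≤ S) {f0 : ℤ → ℝ}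
    (hf : ∀ x, |f0 x| ≤ C) (t : ℝ) (x : ℤ) :
    HasDerivAt (fun s => sol ξ f0 s x) (Real.exp (-(2 * t)) *
      (ser (fun n => U ξ f0 (n + 1) x) t - 2 * ser (fun n => U ξ f0 n x) t)) t := by
  have h1 := (exp_hasDerivAt t).mul (ser_hasDerivAt (U_geo h0 hS hf x) t)
  exact h1.congr_deriv (by ring)

theorem ser_op {C : ℝ} (h0 : ∀ x, 0 ≤ ξ x) (hS : ∀ x, ξ x ≤ S) {f0 : ℤ → ℝ}
    (hf : ∀ x, |f0 x| ≤ C) (t : ℝ) (x : ℤ) :
    ser (fun n => U ξ f0 (n + 1) x) t =
      (ser (fun n => U ξ f0 n (x + 1)) t + ser (fun n => U ξ f0 n (x - 1)) t) / 2 +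
        (1 + ξ x) * ser (fun n => U ξ f0 n x) t := by
  have s1 := ser_summable (U_geo h0 hS hf (x + 1)) t
  have s2 := ser_summable (U_geo h0 hS hf (x - 1)) t
  have s3 := ser_summable (U_geo h0 hS hf x) t
  unfold ser
  rw [← Summable.tsum_add s1 s2, ← tsum_div_const, ← tsum_mul_left,
    ← Summable.tsum_add ((s1.add s2).div_const 2) (s3.mul_left _)]
  congr 1
  funext n
  have e : U ξ f0 (n + 1) x = op ξ Set.univ (U ξ f0 n) x := rfl
  show t ^ n / (n.factorial : ℝ) * U ξ f0 (n + 1) x = _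
  rw [e, op, if_pos (Set.mem_univ x)]
  ring

theorem sol_isPAM {C : ℝ} (h0 : ∀ x, 0 ≤ ξ x) (hS : ∀ x, ξ x ≤ S) {f0 : ℤ → ℝ}
    (hf : ∀ x, |f0 x| ≤ C) : IsPAM ξ f0 (sol ξ f0) := by
  have hC : 0 ≤ C := (abs_nonneg _).trans (hf 0)
  have hS0 : 0 ≤ S := (h0 0).trans (hS 0)
  refine ⟨fun x => ?_, fun T => ?_, fun t _ x => ?_⟩
  · unfold sol ser
    rw [tsum_eq_single 0]
    · simp [U]
    · intro n hn
      simp [hn]
  · refine ⟨C * Real.exp ((2 + S) * T), fun t ht x => ?_⟩
    unfold sol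
    rw [abs_mul, abs_of_pos (Real.exp_pos _)]
    have h1 : Real.exp (-(2 * t)) ≤ 1 := by
      rw [Real.exp_le_one_iff]; have := ht.1; linarith
    have h2 : |ser (fun n => U ξ f0 n x) t| ≤ C * Real.exp ((2 + S) * T) := by
      have hs : Summable (fun n : ℕ => C * (((2 + S) * t) ^ n / (n.factorial : ℝ))) :=
        (Real.summable_pow_div_factorial _).mul_left C
      have h3 : |ser (fun n => U ξ f0 n x) t| ≤
          ∑' n : ℕ, C * (((2 + S) * t) ^ n / (n.factorial : ℝ)) := by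
        unfold ser
        rw [← Real.norm_eq_abs]
        refine tsum_of_norm_bounded hs.hasSum (fun n => ?_)
        rw [Real.norm_eq_abs, abs_mul, abs_div, abs_pow, Nat.abs_cast, abs_of_nonneg ht.1]
        calc t ^ n / (n.factorial : ℝ) * |U ξ f0 n x|
            ≤ t ^ n / (n.factorial : ℝ) * (C * (2 + S) ^ n) :=
              mul_le_mul_of_nonneg_left (U_bound h0 hS hf n x)
                (div_nonneg (pow_nonneg ht.1 n) (Nat.cast_nonneg _))
          _ = C * (((2 + S) * t) ^ n / (n.factorial : ℝ)) := by rw [mul_pow]; ring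
      rw [tsum_mul_left] at h3
      have e : ∑' n : ℕ, ((2 + S) * t) ^ n / (n.factorial : ℝ) = Real.exp ((2 + S) * t) := by
        rw [Real.exp_eq_exp_ℝ, NormedSpace.exp_eq_tsum_div]
      rw [e] at h3
      refine h3.trans (mul_le_mul_of_nonneg_left (Real.exp_le_exp.2 ?_) hC)
      exact mul_le_mul_of_nonneg_left ht.2 (by linarith)
    calc Real.exp (-(2 * t)) * |ser (fun n => U ξ f0 n x) t| ≤
          1 * (C * Real.exp ((2 + S) * T)) :=
          mul_le_mul h1 h2 (abs_nonneg _) zero_le_one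
      _ = _ := one_mul _
  · refine HasDerivAt.hasDerivWithinAt ?_
    refine (sol_hasDerivAt h0 hS hf t x).congr_deriv ?_
    rw [ser_op h0 hS hf]
    unfold lap sol
    ring

/-- Uniqueness of the bounded solution. -/
theorem isPAM_unique (h0 : ∀ x, 0 ≤ ξ x) (hS : ∀ x, ξ x ≤ S) {f0 : ℤ → ℝ}
    {u v : ℝ → ℤ → ℝ} (hu : IsPAM ξ f0 u) (hv : IsPAM ξ f0 v) {t : ℝ} (ht : 0 ≤ t) (x : ℤ) :
    u t x = v t x := by
  have hS0 : 0 ≤ S := (h0 0).trans (hS 0)
  obtain ⟨C1, hC1⟩ := hu.bdd t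
  obtain ⟨C2, hC2⟩ := hv.bdd t
  set M : ℝ := C1 + C2 with hM
  set L : ℝ := 2 + S with hL
  have hL0 : 0 ≤ L := by rw [hL]; linarith
  have key : ∀ n : ℕ, ∀ s ∈ Set.Icc (0:ℝ) t, ∀ x, |u s x - v s x| ≤
      M * ((L * s) ^ n / (n.factorial : ℝ)) := by
    intro n
    induction n with
    | zero =>
      intro s hs x
      have h1 := hC1 s hs x
      have h2 := hC2 s hs x
      simp only [pow_zero, Nat.factorial_zero, Nat.cast_one, div_one, mul_one]
      rw [hM]
      exact (abs_sub _ _).trans (add_le_add h1 h2)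
    | succ n ih =>
      intro s hs x
      have hM0 : 0 ≤ M := by
        rw [hM]
        exact add_nonneg ((abs_nonneg _).trans (hC1 0 ⟨le_rfl, ht⟩ 0))
          ((abs_nonneg _).trans (hC2 0 ⟨le_rfl, ht⟩ 0))
      have hder : ∀ r : ℝ, 0 ≤ r → HasDerivWithinAt (fun r => u r x - v r x)
          ((lap (u r) x + ξ x * u r x) - (lap (v r) x + ξ x * v r x)) (Set.Ici 0) r :=
        fun r hr => (hu.eqn r hr x).sub (hv.eqn r hr x)
      have hB : ∀ r : ℝ, HasDerivAt (fun r : ℝ => M * ((L * r) ^ (n + 1) /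
          ((n + 1).factorial : ℝ))) (L * (M * ((L * r) ^ n / (n.factorial : ℝ)))) r := by
        intro r
        have h1 : HasDerivAt (fun r : ℝ => L * r) (L * 1) r := (hasDerivAt_id r).const_mul L
        have h2 := ((h1.pow (n + 1)).div_const ((n + 1).factorial : ℝ)).const_mul M
        refine h2.congr_deriv ?_
        rw [Nat.factorial_succ, Nat.add_sub_cancel]
        push_cast
        have : ((n : ℝ) + 1) ≠ 0 := by positivity
        field_simp
      have := image_norm_le_of_norm_deriv_right_le_deriv_boundary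
        (f := fun r => u r x - v r x) (a := 0) (b := t)
        (f' := fun r => (lap (u r) x + ξ x * u r x) - (lap (v r) x + ξ x * v r x))
        (B := fun r : ℝ => M * ((L * r) ^ (n + 1) / ((n + 1).factorial : ℝ)))
        (B' := fun r => L * (M * ((L * r) ^ n / (n.factorial : ℝ))))
        (fun r hr => ((hder r hr.1).mono (fun y hy => hy.1)).continuousWithinAt)
        (fun r hr => (hder r hr.1).mono (fun y hy => le_trans hr.1 hy))
        (by rw [hu.init, hv.init]; simp)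
        hB
        (fun r hr => by
          have hr' : r ∈ Set.Icc (0:ℝ) t := ⟨hr.1, hr.2.le⟩
          have k1 := ih r hr' (x + 1)
          have k2 := ih r hr' (x - 1)
          have k3 := ih r hr' x
          set B := M * ((L * r) ^ n / (n.factorial : ℝ)) with hBdef
          have k4 : |ξ x * (u r x - v r x)| ≤ S * B := by
            rw [abs_mul, abs_of_nonneg (h0 x)]
            exact mul_le_mul (hS x) k3 (abs_nonneg _) hS0
          have e : (lap (u r) x + ξ x * u r x) - (lap (v r) x + ξ x * v r x) =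
              ((u r (x + 1) - v r (x + 1)) + (u r (x - 1) - v r (x - 1))) / 2 -
                (u r x - v r x) + ξ x * (u r x - v r x) := by
            unfold lap; ring
          rw [e, Real.norm_eq_abs, hL]
          rw [abs_le] at k1 k2 k3 k4 ⊢
          constructor <;> linarith) hs
      rw [Real.norm_eq_abs] at this
      exact this
  have hlim : Tendsto (fun n : ℕ => M * ((L * t) ^ n / (n.factorial : ℝ))) atTop (𝓝 (M * 0)) :=
    (FloorSemiring.tendsto_pow_div_factorial_atTop (L * t)).const_mul M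
  rw [mul_zero] at hlim
  have h1 : |u t x - v t x| ≤ 0 :=
    ge_of_tendsto' hlim (fun n => key n t ⟨ht, le_rfl⟩ x)
  have h2 := abs_nonpos_iff.1 h1
  linarith

/-! ### Eventual monotonicity of Poissonised sequences -/

theorem ser_pos {d : ℕ → ℝ} (hd : Geo d) {n0 : ℕ} (h1 : ∀ n, n0 ≤ n → 1 ≤ d n) :
    ∃ T : ℝ, 0 ≤ T ∧ ∀ t, T ≤ t → 0 < ser d t := by
  set P : ℝ → ℝ := fun t => ∑ n ∈ range n0, t ^ n / (n.factorial : ℝ) * (1 + |d n|) with hP
  have hlow : ∀ t : ℝ, 0 ≤ t → Real.exp t - P t ≤ ser d t := by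
    intro t ht
    set e : ℕ → ℝ := fun n => if n ∈ range n0 then 1 + |d n| else 0 with he
    have s1 := ser_summable hd t
    have s2 := Real.summable_pow_div_factorial t
    have s3 : Summable (fun n : ℕ => t ^ n / (n.factorial : ℝ) * e n) :=
      summable_of_ne_finset_zero (s := range n0) (fun n hn => by
        simp only [he]; rw [if_neg hn, mul_zero])
    have e1 : ∑' n : ℕ, t ^ n / (n.factorial : ℝ) * e n = P t := by
      rw [tsum_eq_sum (s := range n0) (fun n hn => by simp only [he]; rw [if_neg hn, mul_zero]), hP]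
      refine Finset.sum_congr rfl (fun n hn => ?_)
      simp only [he]; rw [if_pos hn]
    have e2 : ∑' n : ℕ, t ^ n / (n.factorial : ℝ) = Real.exp t := by
      rw [Real.exp_eq_exp_ℝ, NormedSpace.exp_eq_tsum_div]
    have h2 : 0 ≤ ∑' n : ℕ, (t ^ n / (n.factorial : ℝ) * d n +
        (t ^ n / (n.factorial : ℝ) * e n - t ^ n / (n.factorial : ℝ))) := by
      refine tsum_nonneg (fun n => ?_)
      have p : 0 ≤ t ^ n / (n.factorial : ℝ) := by positivity
      have e3 : t ^ n / (n.factorial : ℝ) * d n +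
        (t ^ n / (n.factorial : ℝ) * e n - t ^ n / (n.factorial : ℝ)) =
        t ^ n / (n.factorial : ℝ) * (d n + e n - 1) := by ring
      rw [e3]
      refine mul_nonneg p ?_
      simp only [he]
      split_ifs with hn
      · have := neg_abs_le (d n)
        linarith
      · rw [Finset.mem_range, not_lt] at hn
        have := h1 n hn
        linarith
    rw [Summable.tsum_add s1 (s3.sub s2), Summable.tsum_sub s3 s2, e1, e2] at h2
    have e4 : ser d t = ∑' n : ℕ, t ^ n / (n.factorial : ℝ) * d n := rfl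
    rw [e4]
    linarith
  have hlim : Tendsto (fun t : ℝ => P t * Real.exp (-t)) atTop (𝓝 0) := by
    have : Tendsto (fun t : ℝ => ∑ n ∈ range n0, ((1 + |d n|) / (n.factorial : ℝ)) *
        (t ^ n * Real.exp (-t))) atTop (𝓝 (∑ n ∈ range n0, ((1 + |d n|) / (n.factorial : ℝ)) * 0)) :=
      tendsto_finsetSum _ (fun n _ =>
        (Real.tendsto_pow_mul_exp_neg_atTop_nhds_zero n).const_mul _)
    simp only [mul_zero, Finset.sum_const_zero] at this
    refine this.congr (fun t => ?_)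
    rw [hP]
    simp only
    rw [Finset.sum_mul]
    refine Finset.sum_congr rfl (fun n _ => ?_)
    ring
  have hev := hlim.eventually (gt_mem_nhds one_pos)
  obtain ⟨T, hT⟩ := eventually_atTop.1 hev
  refine ⟨max T 0, le_max_right _ _, fun t ht => ?_⟩
  have h2 := hT t (le_trans (le_max_left _ _) ht)
  have h3 := hlow t (le_trans (le_max_right _ _) ht)
  have h4 : P t < Real.exp t := by
    have := mul_lt_mul_of_pos_right h2 (Real.exp_pos t)
    rw [mul_assoc, ← Real.exp_add, neg_add_cancel, Real.exp_zero, mul_one, one_mul] at this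
    exact this
  linarith

/-- **Deterministic theorem.** -/
theorem eventually_increasing (hS : 0 < S) (hg : Good ξ S) {f0 : ℤ → ℝ} {C : ℝ}
    (hf0 : ∀ y, 0 ≤ f0 y) (hfC : ∀ y, f0 y ≤ C) (hfp : ∀ y, 0 < y → f0 y = 0) (hf1 : 1 ≤ f0 0)
    {u : ℝ → ℤ → ℝ} (hu : IsPAM ξ f0 u) (x : ℤ) :
    ∃ T : ℝ, 0 ≤ T ∧ StrictMonoOn (fun t => u t x) (Set.Ici T) := by
  have h0 := hg.nonneg
  have hle := hg.le
  have habs : ∀ y, |f0 y| ≤ C := fun y => by rw [abs_of_nonneg (hf0 y)]; exact hfC y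
  obtain ⟨n0, hn0⟩ := main_disc hS hg hf0 hfC hfp hf1 x
  have hgeo := U_geo h0 hle habs x
  have hgeo1 := hgeo.shift
  have hd : Geo (fun n => U ξ f0 (n + 1) x - 2 * U ξ f0 n x) := by
    obtain ⟨K, R, hK, hR, h⟩ := hgeo
    refine ⟨K * R + 2 * K, R, by positivity, hR, fun n => ?_⟩
    have a1 := h n
    have a2 := h (n + 1)
    rw [pow_succ] at a2
    rw [abs_le] at a1 a2 ⊢
    constructor <;> nlinarith
  obtain ⟨T, hT0, hT⟩ := ser_pos hd hn0
  have hser : ∀ t, ser (fun n => U ξ f0 (n + 1) x - 2 * U ξ f0 n x) t =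
      ser (fun n => U ξ f0 (n + 1) x) t - 2 * ser (fun n => U ξ f0 n x) t := by
    intro t
    unfold ser
    rw [← tsum_mul_left, ← Summable.tsum_sub (ser_summable hgeo1 t)
      ((ser_summable hgeo t).mul_left 2)]
    congr 1
    funext n
    ring
  have hmono : StrictMonoOn (fun t => sol ξ f0 t x) (Set.Ici T) := by
    refine strictMonoOn_of_deriv_pos (convex_Ici T)
      (fun t _ => (sol_hasDerivAt h0 hle habs t x).continuousAt.continuousWithinAt) ?_
    intro t ht
    rw [interior_Ici] at ht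
    rw [(sol_hasDerivAt h0 hle habs t x).deriv, ← hser]
    exact mul_pos (Real.exp_pos _) (hT t (le_of_lt ht))
  refine ⟨T, hT0, fun s hs t ht hst => ?_⟩
  have e : ∀ r, T ≤ r → u r x = sol ξ f0 r x := fun r hr =>
    isPAM_unique h0 hle hu (sol_isPAM h0 hle habs) (hT0.trans hr) x
  simp only
  rw [e s hs, e t ht]
  exact hmono hs ht hst

end Pool.Agent.R952.PAM
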