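import Pool.Agent.R952.PAM.Ker

/-!
# Symmetry and log-convexity of the kernel (helper952)
-/

set_option autoImplicit false

namespace Pool.Agent.R952.PAM

open Finset
open scoped Classical

variable {ξ : ℤ → ℝ} {A : Set ℤ}

/-- finite support -/
def FS (f : ℤ → ℝ) : Prop := (Function.support f).Finite

theorem FS.mul_right {f : ℤ → ℝ} (hf : FS f) (g : ℤ → ℝ) : Summable (fun z => g z * f z) :=
  summable_of_hasFiniteSupport (hf.subset (fun z hz h => hz (by simp [h])))

theorem FS.mul_left {f : ℤ → ℝ} (hf : FS f) (g : ℤ → ℝ) : Summable (fun z => f z * g z) :=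
  summable_of_hasFiniteSupport (hf.subset (fun z hz h => hz (by simp [h])))

theorem FS.add {f g : ℤ → ℝ} (hf : FS f) (hg : FS g) (s : ℝ) : FS (fun z => f z + s * g z) := by
  refine (Set.Finite.union hf hg).subset (fun z hz => ?_)
  by_contra h
  rw [Set.mem_union, not_or] at h
  have h1 : f z = 0 := by simpa using h.1
  have h2 : g z = 0 := by simpa using h.2
  exact hz (by simp [h1, h2])

noncomputable def ip (f g : ℤ → ℝ) : ℝ := ∑' z, f z * g z

theorem ip_comm (f g : ℤ → ℝ) : ip f g = ip g f := by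
  unfold ip; congr 1; funext z; ring

theorem op_mul {f g : ℤ → ℝ} (hgA : ∀ z, z ∉ A → g z = 0) (z : ℤ) :
    op ξ A f z * g z = (f (z + 1) * g z) / 2 + (f (z - 1) * g z) / 2 +
      (1 + ξ z) * (f z * g z) := by
  unfold op
  split_ifs with h
  · ring
  · rw [hgA z h]; ring

theorem ip_op {f g : ℤ → ℝ} (hg : FS g) (hgA : ∀ z, z ∉ A → g z = 0) :
    ip (op ξ A f) g = (∑' z, f (z + 1) * g z) / 2 + (∑' z, f (z - 1) * g z) / 2 +
      ∑' z, (1 + ξ z) * (f z * g z) := by
  unfold ip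
  simp only [op_mul hgA]
  have h1 : Summable (fun z => f (z + 1) * g z) := hg.mul_right (fun z => f (z + 1))
  have h2 : Summable (fun z => f (z - 1) * g z) := hg.mul_right (fun z => f (z - 1))
  have h3 : Summable (fun z => (1 + ξ z) * (f z * g z)) := by
    have := hg.mul_right (fun z => (1 + ξ z) * f z)
    refine this.congr (fun z => by ring)
  rw [Summable.tsum_add ((h1.div_const 2).add (h2.div_const 2)) h3,
    Summable.tsum_add (h1.div_const 2) (h2.div_const 2), tsum_div_const, tsum_div_const]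

theorem shift_sum (F : ℤ → ℝ) : ∑' z, F (z + 1) = ∑' z, F z :=
  (Equiv.addRight (1 : ℤ)).tsum_eq F

theorem op_selfadj {f g : ℤ → ℝ} (hf : FS f) (hg : FS g) (hfA : ∀ z, z ∉ A → f z = 0)
    (hgA : ∀ z, z ∉ A → g z = 0) : ip (op ξ A f) g = ip f (op ξ A g) := by
  rw [ip_comm f, ip_op hg hgA, ip_op hf hfA]
  have e1 : ∑' z, f (z + 1) * g z = ∑' z, g (z - 1) * f z := by
    rw [← shift_sum (fun z => g (z - 1) * f z)]
    congr 1; funext z; simp only [add_sub_cancel_right]; ring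
  have e2 : ∑' z, f (z - 1) * g z = ∑' z, g (z + 1) * f z := by
    rw [← shift_sum (fun z => f (z - 1) * g z)]
    congr 1; funext z; simp only [add_sub_cancel_right]; ring
  have e3 : ∑' z, (1 + ξ z) * (f z * g z) = ∑' z, (1 + ξ z) * (g z * f z) := by
    congr 1; funext z; ring
  rw [e1, e2, e3]; ring

theorem op_posdef (h0 : ∀ x, 0 ≤ ξ x) {f : ℤ → ℝ} (hf : FS f) (hfA : ∀ z, z ∉ A → f z = 0) :
    0 ≤ ip (op ξ A f) f := by
  rw [ip_op hf hfA]
  have e2 : ∑' z, f (z - 1) * f z = ∑' z, f (z + 1) * f z := by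
    rw [← shift_sum (fun z => f (z - 1) * f z)]
    congr 1; funext z; simp only [add_sub_cancel_right]; ring
  have h1 : Summable (fun z => f (z + 1) * f z) := hf.mul_right (fun z => f (z + 1))
  have h2 : Summable (fun z => f z * f z) := hf.mul_right f
  have h3 : Summable (fun z => ξ z * (f z * f z)) := by
    have := hf.mul_right (fun z => ξ z * f z)
    exact this.congr (fun z => by ring)
  have h4 : Summable (fun z => f (z + 1) * f (z + 1)) :=
    (Equiv.addRight (1 : ℤ)).summable_iff.2 h2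
  have e3 : ∑' z, (1 + ξ z) * (f z * f z) = (∑' z, f z * f z) + ∑' z, ξ z * (f z * f z) := by
    rw [← Summable.tsum_add h2 h3]
    congr 1; funext z; ring
  have e4 : ∑' z, f (z + 1) * f (z + 1) = ∑' z, f z * f z := shift_sum (fun z => f z * f z)
  have h5 : 0 ≤ ∑' z, (f (z + 1) + f z) * (f (z + 1) + f z) :=
    tsum_nonneg (fun z => mul_self_nonneg _)
  have e5 : ∑' z, (f (z + 1) + f z) * (f (z + 1) + f z) =
      (∑' z, f (z + 1) * f (z + 1)) + 2 * (∑' z, f (z + 1) * f z) + ∑' z, f z * f z := by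
    rw [← tsum_mul_left, ← Summable.tsum_add h4 (h1.mul_left 2),
      ← Summable.tsum_add (h4.add (h1.mul_left 2)) h2]
    congr 1; funext z; ring
  have h6 : 0 ≤ ∑' z, ξ z * (f z * f z) :=
    tsum_nonneg (fun z => mul_nonneg (h0 z) (mul_self_nonneg _))
  rw [e2, e3]
  rw [e5, e4] at h5
  linarith

theorem cs_of_nonneg {a b c : ℝ} (h : ∀ s : ℝ, 0 ≤ a + 2 * s * b + s ^ 2 * c) :
    b ^ 2 ≤ a * c := by
  have := discrim_le_zero (a := c) (b := 2 * b) (c := a) (fun x => by have := h x; nlinarith)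
  unfold discrim at this
  nlinarith

theorem cs_ip {f g : ℤ → ℝ} (hf : FS f) (hg : FS g) : (ip f g) ^ 2 ≤ ip f f * ip g g := by
  refine cs_of_nonneg (fun s => ?_)
  have h1 : 0 ≤ ∑' z, (f z + s * g z) * (f z + s * g z) := tsum_nonneg (fun z => mul_self_nonneg _)
  have e : ∑' z, (f z + s * g z) * (f z + s * g z) = ip f f + 2 * s * ip f g + s ^ 2 * ip g g := by
    unfold ip
    rw [← tsum_mul_left, ← tsum_mul_left,
      ← Summable.tsum_add (hf.mul_left f) ((hf.mul_left g).mul_left _),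
      ← Summable.tsum_add ((hf.mul_left f).add ((hf.mul_left g).mul_left _))
        ((hg.mul_left g).mul_left _)]
    congr 1; funext z; ring
  rw [e] at h1; exact h1

theorem cs_op (h0 : ∀ x, 0 ≤ ξ x) {f g : ℤ → ℝ} (hf : FS f) (hg : FS g)
    (hfA : ∀ z, z ∉ A → f z = 0) (hgA : ∀ z, z ∉ A → g z = 0) :
    (ip (op ξ A f) g) ^ 2 ≤ ip (op ξ A f) f * ip (op ξ A g) g := by
  refine cs_of_nonneg (fun s => ?_)
  have h1 := op_posdef (A := A) h0 (hf.add hg s) (fun z hz => by
    rw [hfA z hz, hgA z hz]; simp)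
  have e : ip (op ξ A (fun z => f z + s * g z)) (fun z => f z + s * g z) =
      ip (op ξ A f) f + 2 * s * ip (op ξ A f) g + s ^ 2 * ip (op ξ A g) g := by
    have e1 : ∀ z, op ξ A (fun z => f z + s * g z) z = op ξ A f z + s * op ξ A g z := by
      intro z
      rw [op_add f (fun z => s * g z), op_smul]
    have e2 : ip (op ξ A g) f = ip (op ξ A f) g := by
      rw [op_selfadj hg hf hgA hfA, ip_comm]
    have e3 : 2 * s * ip (op ξ A f) g = s * ip (op ξ A f) g + s * ip (op ξ A g) f := by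
      rw [e2]; ring
    rw [e3]
    unfold ip
    have k1 := hf.mul_right (op ξ A f)
    have k2 := (hg.mul_right (op ξ A f)).mul_left s
    have k3 := (hf.mul_right (op ξ A g)).mul_left s
    have k4 := (hg.mul_right (op ξ A g)).mul_left (s ^ 2)
    rw [← tsum_mul_left, ← tsum_mul_left, ← tsum_mul_left, ← Summable.tsum_add k2 k3,
      ← Summable.tsum_add k1 (k2.add k3), ← Summable.tsum_add (k1.add (k2.add k3)) k4]
    congr 1; funext z
    rw [e1]; ring
  rw [e] at h1; exact h1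

/-- column of the kernel -/
noncomputable def col (ξ : ℤ → ℝ) (A : Set ℤ) (y : ℤ) (n : ℕ) : ℤ → ℝ := fun z => b ξ A n z y

theorem col_FS (y : ℤ) (n : ℕ) : FS (col ξ A y n) := by
  refine (Set.finite_Icc (y - n) (y + n)).subset (fun z hz => ?_)
  by_contra h
  apply hz
  refine b_far n z y ?_
  rw [Set.mem_Icc, not_and_or] at h
  omega

theorem col_A (y : ℤ) (n : ℕ) (z : ℤ) (hz : z ∉ A) : col ξ A y n z = 0 := b_notMem hz n y

theorem col_succ (y : ℤ) (n : ℕ) : col ξ A y (n + 1) = op ξ A (col ξ A y n) := by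
  funext z; rfl

theorem ip_zero {y : ℤ} (hy : y ∈ A) (f : ℤ → ℝ) : ip f (col ξ A y 0) = f y := by
  unfold ip
  rw [tsum_eq_single y]
  · simp [col, b_zero, hy]
  · intro z hz
    simp [col, b_zero, hz]

theorem ip_move (x y : ℤ) (i j : ℕ) :
    ip (col ξ A x (i + 1)) (col ξ A y j) = ip (col ξ A x i) (col ξ A y (j + 1)) := by
  rw [col_succ, col_succ, op_selfadj (col_FS x i) (col_FS y j) (col_A x i) (col_A y j)]

theorem ip_move' (x y : ℤ) (i j : ℕ) :
    ip (col ξ A x i) (col ξ A y j) = ip (col ξ A x (i + j)) (col ξ A y 0) := by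
  induction j generalizing i with
  | zero => rfl
  | succ j ih => rw [← ip_move, ih, show i + 1 + j = i + (j + 1) by ring]

theorem ip_eq_b {x y : ℤ} (hy : y ∈ A) (i j : ℕ) :
    ip (col ξ A x i) (col ξ A y j) = b ξ A (i + j) y x := by
  rw [ip_move', ip_zero hy]
  rfl

theorem b_symm {x y : ℤ} (hx : x ∈ A) (hy : y ∈ A) (n : ℕ) : b ξ A n x y = b ξ A n y x := by
  have h1 := ip_eq_b (ξ := ξ) (x := x) hy n 0
  have h2 := ip_eq_b (ξ := ξ) (x := y) hx 0 n
  rw [ip_comm, Nat.zero_add] at h2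
  rw [Nat.add_zero] at h1
  rw [← h1, ← h2]

/-- Log-convexity of the return sequence. -/
theorem b_logconvex (h0 : ∀ x, 0 ≤ ξ x) {x : ℤ} (hx : x ∈ A) (n : ℕ) :
    (b ξ A (n + 1) x x) ^ 2 ≤ b ξ A n x x * b ξ A (n + 2) x x := by
  rcases Nat.even_or_odd' n with ⟨j, rfl | rfl⟩
  · have h := cs_ip (col_FS (ξ := ξ) (A := A) x (j + 1)) (col_FS (ξ := ξ) (A := A) x j)
    rw [ip_eq_b hx, ip_eq_b hx, ip_eq_b hx] at h
    have e1 : j + 1 + j = 2 * j + 1 := by ring
    have e2 : j + 1 + (j + 1) = 2 * j + 2 := by ring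
    have e3 : j + j = 2 * j := by ring
    rw [e1, e2, e3] at h
    linarith
  · have h := cs_op (A := A) h0 (col_FS (ξ := ξ) (A := A) x j) (col_FS (ξ := ξ) (A := A) x (j + 1))
      (col_A x j) (col_A x (j + 1))
    rw [← col_succ, ← col_succ, ip_eq_b hx, ip_eq_b hx, ip_eq_b hx] at h
    have e1 : j + 1 + (j + 1) = 2 * j + 1 + 1 := by ring
    have e2 : j + 1 + 1 + (j + 1) = 2 * j + 1 + 2 := by ring
    have e3 : j + 1 + j = 2 * j + 1 := by ring
    rw [e1, e2, e3] at h
    linarith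

end Pool.Agent.R952.PAM
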